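import Mathlib

/-!
# ED, Cnt: weighted count of the pairs of factorizations congruent modulo `q`
-/

set_option autoImplicit false

open scoped ENNReal

namespace Pool.Agent.H81.ED

/-- Sums over functions on `Fin m` of products. -/
lemma tsum_pi {J : Type} (f : J → ℝ≥0∞) (m : ℕ) :
    ∑' u : Fin m → J, ∏ i, f (u i) = (∑' j, f j) ^ m := by
  induction m with
  | zero =>
    rw [pow_zero, tsum_eq_single (fun i : Fin 0 => i.elim0)]
    · simp
    · intro b hb
      exact absurd (Subsingleton.elim _ _) hb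
  | succ m ih =>
    rw [← (Fin.consEquiv (fun _ : Fin (m + 1) => J)).tsum_eq, ENNReal.tsum_prod', pow_succ', ← ih,
      ← ENNReal.tsum_mul_right]
    apply tsum_congr
    intro j
    rw [← ENNReal.tsum_mul_left]
    apply tsum_congr
    intro u
    rw [Fin.prod_univ_succ]
    simp [Fin.consEquiv]

/-- The product. -/
def FF {m : ℕ} (u : Fin m → ℕ+) : ℕ := ∏ i, (u i : ℕ)

lemma FF_pos {m : ℕ} (u : Fin m → ℕ+) : 0 < FF u := Finset.prod_pos fun i _ => (u i).pos

/-- The weight. -/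
noncomputable def wt (h : ℝ) (n : ℕ+) : ℝ≥0∞ := ENNReal.ofReal (((n : ℕ) : ℝ) ^ (-(1 + h)))

/-- The weight of a tuple. -/
noncomputable def WW (h : ℝ) {m : ℕ} (u : Fin m → ℕ+) : ℝ≥0∞ := ∏ i, wt h (u i)

/-- The zeta value. -/
noncomputable def ZZ (h : ℝ) : ℝ≥0∞ := ∑' n : ℕ+, wt h n

lemma tsum_WW (h : ℝ) (m : ℕ) : ∑' u : Fin m → ℕ+, WW h u = ZZ h ^ m := tsum_pi (wt h) m

/-- A divisor of a product is a product of divisors. -/
lemma exists_split (c : ℕ) : ∀ (a : ℕ) (v : Fin c → ℕ), a ∣ ∏ j, v j →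
    ∃ g : Fin c → ℕ, ∏ j, g j = a ∧ ∀ j, g j ∣ v j := by
  induction c with
  | zero =>
    intro a v h
    refine ⟨fun j => j.elim0, ?_, fun j => j.elim0⟩
    have h1 : a = 1 := Nat.dvd_one.mp (by simpa using h)
    simp [h1]
  | succ c ih =>
    intro a v h
    rw [Fin.prod_univ_succ] at h
    obtain ⟨x, y, hx, hy, rfl⟩ := exists_dvd_and_dvd_of_dvd_mul h
    obtain ⟨g, hg1, hg2⟩ := ih y _ hy
    refine ⟨Fin.cons x g, ?_, ?_⟩
    · rw [Fin.prod_univ_succ]
      simp [hg1]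
    · intro j
      refine Fin.cases ?_ (fun k => ?_) j
      · simpa using hx
      · simpa using hg2 k

/-- Two factorizations of the same number have a common refinement. -/
lemma exists_matrix (r c : ℕ) : ∀ (u : Fin r → ℕ) (v : Fin c → ℕ), (∀ j, 0 < v j) →
    ∏ i, u i = ∏ j, v j →
    ∃ g : Fin r → Fin c → ℕ, (∀ i, ∏ j, g i j = u i) ∧ (∀ j, ∏ i, g i j = v j) := by
  induction r with
  | zero =>
    intro u v hv h
    refine ⟨fun i => i.elim0, fun i => i.elim0, fun j => ?_⟩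
    have h1 : ∏ j, v j = 1 := by rw [← h]; simp
    have h2 : v j ∣ 1 := by
      rw [← h1]
      exact Finset.dvd_prod_of_mem _ (Finset.mem_univ j)
    simp [Nat.dvd_one.mp h2]
  | succ r ih =>
    intro u v hv h
    rw [Fin.prod_univ_succ] at h
    obtain ⟨a, ha1, ha2⟩ := exists_split c (u 0) v ⟨_, h.symm⟩
    choose w hw using ha2
    have hw0 : ∀ j, 0 < w j := by
      intro j
      have := hv j
      rw [hw j] at this
      exact Nat.pos_of_mul_pos_left this
    have hu0 : 0 < u 0 := by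
      rw [← ha1]
      refine Finset.prod_pos fun j _ => ?_
      have := hv j
      rw [hw j] at this
      exact Nat.pos_of_mul_pos_right this
    have h1 : ∏ i : Fin r, u i.succ = ∏ j, w j := by
      have h2 : u 0 * ∏ i : Fin r, u i.succ = u 0 * ∏ j, w j := by
        rw [h, Finset.prod_congr rfl (fun j _ => hw j), Finset.prod_mul_distrib, ha1]
      exact Nat.eq_of_mul_eq_mul_left hu0 h2
    obtain ⟨g, hg1, hg2⟩ := ih (fun i => u i.succ) w hw0 h1
    refine ⟨Fin.cons a g, ?_, ?_⟩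
    · intro i
      refine Fin.cases ?_ (fun k => ?_) i
      · simpa using ha1
      · simpa using hg1 k
    · intro j
      rw [Fin.prod_univ_succ]
      simp [hg2, hw j]

/-- The diagonal. -/
noncomputable def DD (m : ℕ) : ℝ≥0∞ := ((∑' n : ℕ+, wt 1 n) ^ m) ^ m

lemma wt_le {h : ℝ} (hh : 0 ≤ h) (n : ℕ+) : wt h n ≤ ENNReal.ofReal (((n : ℕ) : ℝ)⁻¹) := by
  unfold wt
  apply ENNReal.ofReal_le_ofReal
  have h1 : (1:ℝ) ≤ ((n : ℕ) : ℝ) := by exact_mod_cast n.pos
  rw [← Real.rpow_neg_one]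
  exact Real.rpow_le_rpow_of_exponent_le h1 (by linarith)

lemma WW_le {h : ℝ} (hh : 0 ≤ h) {m : ℕ} (u : Fin m → ℕ+) :
    WW h u ≤ ENNReal.ofReal ((FF u : ℝ)⁻¹) := by
  unfold WW FF
  push_cast
  rw [← Finset.prod_inv_distrib, ENNReal.ofReal_prod_of_nonneg (fun i _ => by positivity)]
  exact Finset.prod_le_prod' fun i _ => wt_le hh (u i)

lemma diag_le {h : ℝ} (hh : 0 ≤ h) (m : ℕ) :
    ∑' x : {x : (Fin m → ℕ+) × (Fin m → ℕ+) // FF x.1 = FF x.2}, WW h x.1.1 * WW h x.1.2 ≤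
      DD m := by
  have key : ∀ x : {x : (Fin m → ℕ+) × (Fin m → ℕ+) // FF x.1 = FF x.2},
      ∃ g : Fin m → Fin m → ℕ+, (∀ i, ∏ j, (g i j : ℕ) = x.1.1 i) ∧
        (∀ j, ∏ i, (g i j : ℕ) = x.1.2 j) := by
    rintro ⟨⟨u, v⟩, hx⟩
    obtain ⟨g, h1, h2⟩ := exists_matrix m m (fun i => (u i : ℕ)) (fun j => (v j : ℕ))
      (fun j => (v j).pos) hx
    have hpos : ∀ i j, 0 < g i j := by
      intro i j
      have h3 : g i j ∣ (u i : ℕ) := by
        rw [← h1 i]
        exact Finset.dvd_prod_of_mem _ (Finset.mem_univ j)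
      exact Nat.pos_of_dvd_of_pos h3 (u i).pos
    exact ⟨fun i j => ⟨g i j, hpos i j⟩, h1, h2⟩
  choose G hG1 hG2 using key
  have hinj : Function.Injective G := by
    intro x y hxy
    apply Subtype.ext
    apply Prod.ext
    · funext i
      apply PNat.eq
      rw [← hG1 x i, ← hG1 y i, hxy]
    · funext j
      apply PNat.eq
      rw [← hG2 x j, ← hG2 y j, hxy]
  have hval : ∀ x, WW h x.1.1 * WW h x.1.2 ≤ ∏ i, ∏ j, wt 1 (G x i j) := by
    intro x
    have h1 : FF x.1.1 = ∏ i, ∏ j, (G x i j : ℕ) := by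
      unfold FF
      exact Finset.prod_congr rfl fun i _ => (hG1 x i).symm
    calc WW h x.1.1 * WW h x.1.2
        ≤ ENNReal.ofReal ((FF x.1.1 : ℝ)⁻¹) * ENNReal.ofReal ((FF x.1.2 : ℝ)⁻¹) :=
          mul_le_mul' (WW_le hh _) (WW_le hh _)
      _ = ENNReal.ofReal (∏ i, ∏ j, (((G x i j : ℕ) : ℝ) ^ (-(1 + 1) : ℝ))) := by
          rw [← x.2, ← ENNReal.ofReal_mul (by positivity), h1]
          congr 1
          push_cast
          rw [← Finset.prod_inv_distrib, ← Finset.prod_mul_distrib]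
          apply Finset.prod_congr rfl
          intro i _
          rw [← Finset.prod_inv_distrib, ← Finset.prod_mul_distrib]
          apply Finset.prod_congr rfl
          intro j _
          have h2 : (0:ℝ) < ((G x i j : ℕ) : ℝ) := by exact_mod_cast (G x i j).pos
          rw [show (-(1 + 1) : ℝ) = -1 + -1 by norm_num, Real.rpow_add h2, Real.rpow_neg_one]
      _ = ∏ i, ∏ j, wt 1 (G x i j) := by
          rw [ENNReal.ofReal_prod_of_nonneg (fun i _ => by positivity)]
          apply Finset.prod_congr rfl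
          intro i _
          rw [ENNReal.ofReal_prod_of_nonneg (fun j _ => by positivity)]
          rfl
  calc ∑' x : {x : (Fin m → ℕ+) × (Fin m → ℕ+) // FF x.1 = FF x.2}, WW h x.1.1 * WW h x.1.2
      ≤ ∑' x : {x : (Fin m → ℕ+) × (Fin m → ℕ+) // FF x.1 = FF x.2},
          ∏ i, ∏ j, wt 1 (G x i j) := ENNReal.tsum_le_tsum hval
    _ ≤ ∑' g : Fin m → Fin m → ℕ+, ∏ i, ∏ j, wt 1 (g i j) :=
        ENNReal.tsum_comp_le_tsum_of_injective hinj (fun g => ∏ i, ∏ j, wt 1 (g i j))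
    _ = DD m := by
        rw [tsum_pi (fun r : Fin m → ℕ+ => ∏ j, wt 1 (r j)) m, tsum_pi]
        rfl

end Pool.Agent.H81.ED
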