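import Mathlib
import Pool.Agent.H81.ED.Cnt

/-!
# ED, Off: the off-diagonal part
-/

set_option autoImplicit false

open scoped ENNReal

namespace Pool.Agent.H81.ED

/-- Congruent and prime to `q`. -/
def Cg (q a b : ℕ) : Prop := (a : ZMod q) = (b : ZMod q) ∧ IsUnit (a : ZMod q)

lemma Cg.symm {q a b : ℕ} (h : Cg q a b) : Cg q b a := ⟨h.1.symm, h.1 ▸ h.2⟩

/-- The bound for one class. -/
noncomputable def BB (q m : ℕ) (h : ℝ) : ℝ≥0∞ :=
  ENNReal.ofReal ((q : ℝ) ^ (-(1 / (m : ℝ)))) + ENNReal.ofReal ((q : ℝ)⁻¹) * ZZ h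

open Classical in
lemma inner_le {q m : ℕ} (hq : 0 < q) (hm : 0 < m) {h : ℝ} (hh : 0 < h) (c : ZMod q) :
    ∑' n : ℕ+, (if ((n : ℕ) : ZMod q) = c ∧ q < (n : ℕ) ^ m then wt h n else 0) ≤ BB q m h := by
  set S : Set ℕ+ := {n | ((n : ℕ) : ZMod q) = c ∧ q < (n : ℕ) ^ m} with hS
  have h1 : ∑' n : ℕ+, (if ((n : ℕ) : ZMod q) = c ∧ q < (n : ℕ) ^ m then wt h n else 0) =
      ∑' n : S, wt h n := by
    rw [tsum_subtype]
    apply tsum_congr
    intro n
    simp [Set.indicator_apply, hS]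
  rw [h1]
  set g : ℕ → ℝ≥0∞ := fun j => if j = 0 then ENNReal.ofReal ((q : ℝ) ^ (-(1 / (m : ℝ)))) else
    ENNReal.ofReal ((q : ℝ)⁻¹) * wt h (Nat.toPNat' j) with hg
  have hinj : Function.Injective (fun n : S => ((n : ℕ+) - 1 : ℕ) / q) := by
    rintro ⟨a, ha⟩ ⟨b, hb⟩ hab
    apply Subtype.ext
    apply PNat.eq
    simp only at hab ⊢
    have h2 : ((a : ℕ) : ZMod q) = ((b : ℕ) : ZMod q) := ha.1.trans hb.1.symm
    rw [ZMod.natCast_eq_natCast_iff] at h2
    have h3 : ((a : ℕ) - 1) ≡ ((b : ℕ) - 1) [MOD q] := by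
      apply Nat.ModEq.add_right_cancel' 1
      rwa [Nat.sub_add_cancel a.pos, Nat.sub_add_cancel b.pos]
    have h4 := Nat.div_add_mod ((a : ℕ) - 1) q
    have h5 := Nat.div_add_mod ((b : ℕ) - 1) q
    rw [hab, h3] at h4
    have h6 := a.pos
    have h7 := b.pos
    omega
  have hle : ∀ n : S, wt h n ≤ g (((n : ℕ+) - 1 : ℕ) / q) := by
    rintro ⟨a, ha⟩
    simp only
    by_cases h0 : ((a : ℕ) - 1) / q = 0
    · rw [hg, h0]
      simp only [if_true]
      refine (wt_le hh.le a).trans (ENNReal.ofReal_le_ofReal ?_)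
      have hqm : (q : ℝ) ≤ ((a : ℕ) : ℝ) ^ m := by exact_mod_cast ha.2.le
      have h2 : (q : ℝ) ^ (1 / (m : ℝ)) ≤ ((a : ℕ) : ℝ) := by
        calc (q : ℝ) ^ (1 / (m : ℝ)) ≤ (((a : ℕ) : ℝ) ^ m) ^ (1 / (m : ℝ)) :=
              Real.rpow_le_rpow (by positivity) hqm (by positivity)
          _ = ((a : ℕ) : ℝ) := by
              rw [one_div]
              exact Real.pow_rpow_inv_natCast (by positivity) hm.ne'
      rw [Real.rpow_neg (by positivity)]
      exact inv_anti₀ (Real.rpow_pos_of_pos (by exact_mod_cast hq) _) h2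
    · rw [hg]
      simp only [if_neg h0]
      set j : ℕ := ((a : ℕ) - 1) / q with hj
      have hj0 : 0 < j := Nat.pos_of_ne_zero h0
      have h2 : j * q ≤ (a : ℕ) := by
        have h9 := Nat.div_mul_le_self ((a : ℕ) - 1) q
        rw [← hj] at h9
        exact h9.trans (Nat.sub_le _ _)
      have h3 : ((Nat.toPNat' j : ℕ+) : ℕ) = j := by
        rw [Nat.toPNat'_coe, if_pos hj0]
      unfold wt
      rw [h3, ← ENNReal.ofReal_mul (by positivity)]
      apply ENNReal.ofReal_le_ofReal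
      have hq0 : (0:ℝ) < (q : ℝ) := by exact_mod_cast hq
      have hq1 : (1:ℝ) ≤ (q : ℝ) := by exact_mod_cast hq
      have hj1 : (0:ℝ) < (j : ℝ) := by exact_mod_cast hj0
      calc ((a : ℕ) : ℝ) ^ (-(1 + h)) ≤ ((j : ℝ) * q) ^ (-(1 + h)) := by
            apply Real.rpow_le_rpow_of_nonpos (by positivity) _ (by linarith)
            exact_mod_cast h2
        _ = (j : ℝ) ^ (-(1 + h)) * (q : ℝ) ^ (-(1 + h)) :=
            Real.mul_rpow hj1.le hq0.le
        _ ≤ (j : ℝ) ^ (-(1 + h)) * (q : ℝ)⁻¹ := by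
            apply mul_le_mul_of_nonneg_left _ (by positivity)
            rw [← Real.rpow_neg_one]
            exact Real.rpow_le_rpow_of_exponent_le hq1 (by linarith)
        _ = (q : ℝ)⁻¹ * (j : ℝ) ^ (-(1 + h)) := mul_comm _ _
  calc ∑' n : S, wt h n ≤ ∑' n : S, g (((n : ℕ+) - 1 : ℕ) / q) := ENNReal.tsum_le_tsum hle
    _ ≤ ∑' j : ℕ, g j := ENNReal.tsum_comp_le_tsum_of_injective hinj g
    _ = g 0 + ∑' j : ℕ, g (j + 1) := tsum_eq_zero_add' ENNReal.summable
    _ ≤ BB q m h := by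
        unfold BB
        apply add_le_add
        · rw [hg]
          simp
        · have h2 : ∀ j : ℕ, g (j + 1) = ENNReal.ofReal ((q : ℝ)⁻¹) * wt h (Nat.succPNat j) := by
            intro j
            rw [hg]
            simp only [Nat.add_eq_zero_iff, one_ne_zero, and_false, if_false]
            congr 2
          simp_rw [h2]
          rw [ENNReal.tsum_mul_left]
          apply mul_le_mul_right
          exact ENNReal.tsum_comp_le_tsum_of_injective Nat.succPNat_injective (wt h)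

open Classical in
lemma off_le {q n : ℕ} (hq : 0 < q) {h : ℝ} (hh : 0 < h) (i : Fin (n + 1)) :
    ∑' x : (Fin (n + 1) → ℕ+) × (Fin (n + 1) → ℕ+),
      (if Cg q (FF x.1) (FF x.2) ∧ q < (x.1 i : ℕ) ^ (n + 1) then WW h x.1 * WW h x.2 else 0) ≤
    BB q (n + 1) h * ZZ h ^ n * ZZ h ^ (n + 1) := by
  rw [ENNReal.tsum_prod', ← (Fin.insertNthEquiv (fun _ : Fin (n + 1) => ℕ+) i).tsum_eq,
    ENNReal.tsum_prod', ENNReal.tsum_comm]
  have key : ∀ (u : Fin n → ℕ+) (v : Fin (n + 1) → ℕ+),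
      ∑' a : ℕ+, (if Cg q (FF (Fin.insertNthEquiv (fun _ : Fin (n + 1) => ℕ+) i (a, u))) (FF v) ∧
        q < ((Fin.insertNthEquiv (fun _ : Fin (n + 1) => ℕ+) i (a, u)) i : ℕ) ^ (n + 1) then
        WW h (Fin.insertNthEquiv (fun _ : Fin (n + 1) => ℕ+) i (a, u)) * WW h v else 0) ≤
      WW h u * WW h v * BB q (n + 1) h := by
    intro u v
    have hF : ∀ a : ℕ+, FF (Fin.insertNthEquiv (fun _ : Fin (n + 1) => ℕ+) i (a, u)) =
        a * FF u := by
      intro a
      unfold FF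
      rw [Fin.prod_univ_succAbove _ i]
      simp
    have hW : ∀ a : ℕ+, WW h (Fin.insertNthEquiv (fun _ : Fin (n + 1) => ℕ+) i (a, u)) =
        wt h a * WW h u := by
      intro a
      unfold WW
      rw [Fin.prod_univ_succAbove _ i]
      simp
    have hi : ∀ a : ℕ+, (Fin.insertNthEquiv (fun _ : Fin (n + 1) => ℕ+) i (a, u)) i = a := by
      intro a
      simp
    simp_rw [hF, hW, hi]
    calc ∑' a : ℕ+, (if Cg q (a * FF u) (FF v) ∧ q < (a : ℕ) ^ (n + 1) then
            wt h a * WW h u * WW h v else 0)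
        ≤ ∑' a : ℕ+, WW h u * WW h v *
            (if ((a : ℕ) : ZMod q) = (FF v : ZMod q) * (FF u : ZMod q)⁻¹ ∧
              q < (a : ℕ) ^ (n + 1) then wt h a else 0) := by
          apply ENNReal.tsum_le_tsum
          intro a
          by_cases hc : Cg q (a * FF u) (FF v) ∧ q < (a : ℕ) ^ (n + 1)
          · have h1 : ((a : ℕ) : ZMod q) = (FF v : ZMod q) * (FF u : ZMod q)⁻¹ := by
              have h2 := hc.1.1
              have h3 := hc.1.2
              push_cast at h2 h3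
              have h4 : IsUnit (FF u : ZMod q) := isUnit_of_mul_isUnit_right h3
              rw [← h2, mul_assoc, ZMod.mul_inv_of_unit _ h4, mul_one]
            rw [if_pos hc, if_pos ⟨h1, hc.2⟩]
            exact le_of_eq (by ring)
          · rw [if_neg hc]
            exact zero_le
      _ ≤ WW h u * WW h v * BB q (n + 1) h := by
          rw [ENNReal.tsum_mul_left]
          exact mul_le_mul_right (inner_le hq (Nat.succ_pos n) hh _) _
  calc _ ≤ ∑' (u : Fin n → ℕ+), ∑' (v : Fin (n + 1) → ℕ+), WW h u * WW h v * BB q (n + 1) h := by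
        apply ENNReal.tsum_le_tsum
        intro u
        rw [ENNReal.tsum_comm]
        exact ENNReal.tsum_le_tsum fun v => key u v
    _ = BB q (n + 1) h * ZZ h ^ n * ZZ h ^ (n + 1) := by
        simp_rw [ENNReal.tsum_mul_right, ENNReal.tsum_mul_left, tsum_WW,
          ENNReal.tsum_mul_right, tsum_WW]
        ring

lemma big_factor {q m : ℕ} (hm : 0 < m) {u : Fin m → ℕ+} (h : q < FF u) :
    ∃ i, q < (u i : ℕ) ^ m := by
  by_contra hcon
  push Not at hcon
  have h1 : (FF u) ^ m ≤ q ^ m := by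
    unfold FF
    rw [← Finset.prod_pow]
    calc ∏ i, (u i : ℕ) ^ m ≤ ∏ _i : Fin m, q := Finset.prod_le_prod' fun i _ => hcon i
      _ = q ^ m := by simp
  exact absurd ((Nat.pow_le_pow_iff_left hm.ne').mp h1) (by omega)

open Classical in
/-- The count. -/
theorem count_le {q n : ℕ} (hq : 0 < q) {h : ℝ} (hh : 0 < h) :
    ∑' x : (Fin (n + 1) → ℕ+) × (Fin (n + 1) → ℕ+),
      (if Cg q (FF x.1) (FF x.2) then WW h x.1 * WW h x.2 else 0) ≤
    DD (n + 1) + 2 * ((n + 1 : ℕ) * (BB q (n + 1) h * ZZ h ^ n * ZZ h ^ (n + 1))) := by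
  set A : (Fin (n + 1) → ℕ+) × (Fin (n + 1) → ℕ+) → ℝ≥0∞ := fun x =>
    if FF x.1 = FF x.2 then WW h x.1 * WW h x.2 else 0 with hA
  set B : Fin (n + 1) → (Fin (n + 1) → ℕ+) × (Fin (n + 1) → ℕ+) → ℝ≥0∞ := fun i x =>
    if Cg q (FF x.1) (FF x.2) ∧ q < (x.1 i : ℕ) ^ (n + 1) then WW h x.1 * WW h x.2 else 0 with hB
  have hpt : ∀ x : (Fin (n + 1) → ℕ+) × (Fin (n + 1) → ℕ+),
      (if Cg q (FF x.1) (FF x.2) then WW h x.1 * WW h x.2 else 0) ≤
        A x + (∑ i, B i x + ∑ i, B i x.swap) := by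
    intro x
    by_cases hc : Cg q (FF x.1) (FF x.2)
    · rw [if_pos hc]
      have hmod : FF x.1 ≡ FF x.2 [MOD q] := (ZMod.natCast_eq_natCast_iff _ _ _).mp hc.1
      rcases lt_trichotomy (FF x.1) (FF x.2) with h1 | h1 | h1
      · have h2 : q < FF x.2 := by
          have h3 := (Nat.modEq_iff_dvd' h1.le).mp hmod
          have h4 := Nat.le_of_dvd (by omega) h3
          have h5 := FF_pos x.1
          omega
        obtain ⟨i, hi⟩ := big_factor (Nat.succ_pos n) h2
        have h3 : B i x.swap = WW h x.1 * WW h x.2 := by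
          rw [hB]
          simp only [Prod.fst_swap, Prod.snd_swap]
          rw [if_pos ⟨hc.symm, hi⟩, mul_comm]
        rw [← h3]
        exact (Finset.single_le_sum (f := fun i => B i x.swap) (fun j _ => zero_le)
          (Finset.mem_univ i) : B i x.swap ≤ ∑ i, B i x.swap).trans (le_add_left (le_add_left le_rfl))
      · have h3 : A x = WW h x.1 * WW h x.2 := by
          rw [hA]
          simp only
          rw [if_pos h1]
        rw [← h3]
        exact le_add_right le_rfl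
      · have h2 : q < FF x.1 := by
          have h3 := (Nat.modEq_iff_dvd' h1.le).mp hmod.symm
          have h4 := Nat.le_of_dvd (by omega) h3
          have h5 := FF_pos x.2
          omega
        obtain ⟨i, hi⟩ := big_factor (Nat.succ_pos n) h2
        have h3 : B i x = WW h x.1 * WW h x.2 := by
          rw [hB]
          simp only
          rw [if_pos ⟨hc, hi⟩]
        rw [← h3]
        exact (Finset.single_le_sum (f := fun i => B i x) (fun j _ => zero_le)
          (Finset.mem_univ i) : B i x ≤ ∑ i, B i x).trans (le_add_left (le_add_right le_rfl))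
    · rw [if_neg hc]
      exact zero_le
  have hAs : ∑' x, A x ≤ DD (n + 1) := by
    refine le_trans (le_of_eq ?_) (diag_le hh.le (n + 1))
    refine Eq.trans ?_ (tsum_subtype {x : (Fin (n + 1) → ℕ+) × (Fin (n + 1) → ℕ+) |
      FF x.1 = FF x.2} (fun x => WW h x.1 * WW h x.2)).symm
    apply tsum_congr
    intro x
    simp [Set.indicator_apply, hA]
  have hBs : ∀ i, ∑' x, B i x ≤ BB q (n + 1) h * ZZ h ^ n * ZZ h ^ (n + 1) := fun i =>
    off_le hq hh i
  have hBs' : ∀ i, ∑' x : (Fin (n + 1) → ℕ+) × (Fin (n + 1) → ℕ+), B i x.swap ≤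
      BB q (n + 1) h * ZZ h ^ n * ZZ h ^ (n + 1) := by
    intro i
    refine le_trans (le_of_eq ?_) (hBs i)
    exact (Equiv.prodComm _ _).tsum_eq (B i)
  calc _ ≤ ∑' x, (A x + (∑ i, B i x + ∑ i, B i x.swap)) := ENNReal.tsum_le_tsum hpt
    _ = ∑' x, A x + (∑ i, ∑' x, B i x + ∑ i, ∑' x, B i (Prod.swap x)) := by
        rw [ENNReal.tsum_add, ENNReal.tsum_add, Summable.tsum_finsetSum (fun i _ => ENNReal.summable),
          Summable.tsum_finsetSum (fun i _ => ENNReal.summable)]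
    _ ≤ DD (n + 1) + (∑ _i : Fin (n + 1), BB q (n + 1) h * ZZ h ^ n * ZZ h ^ (n + 1) +
          ∑ _i : Fin (n + 1), BB q (n + 1) h * ZZ h ^ n * ZZ h ^ (n + 1)) := by
        gcongr with i _ i _
        · exact hBs i
        · exact hBs' i
    _ = DD (n + 1) + 2 * ((n + 1 : ℕ) * (BB q (n + 1) h * ZZ h ^ n * ZZ h ^ (n + 1))) := by
        rw [Finset.sum_const, Finset.card_univ, Fintype.card_fin, nsmul_eq_mul]
        ring

end Pool.Agent.H81.ED
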