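import Mathlib
import Pool.Agent.H81.ED.Off

/-!
# ED, Mean: the mean of the even moments over the characters modulo `q`
-/

set_option autoImplicit false

open scoped ENNReal

namespace Pool.Agent.H81.ED

/-- Powers of an absolutely convergent series. -/
lemma hasSum_pi {J : Type} {x : J → ℂ} (hx : Summable fun j => ‖x j‖) (m : ℕ) :
    HasSum (fun u : Fin m → J => ∏ i, x (u i)) ((∑' j, x j) ^ m) ∧
      Summable (fun u : Fin m → J => ‖∏ i, x (u i)‖) := by
  induction m with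
  | zero =>
    constructor
    · rw [pow_zero]
      have h1 := hasSum_unique (fun u : Fin 0 → J => ∏ i, x (u i))
      simp only [Finset.univ_eq_empty, Finset.prod_empty] at h1 ⊢
      exact h1
    · exact (hasSum_unique _).summable
  | succ m ih =>
    obtain ⟨ih1, ih2⟩ := ih
    have e1 : ∀ y : J × (Fin m → J), ∏ i, x ((Fin.consEquiv (fun _ : Fin (m + 1) => J)) y i) =
        x y.1 * ∏ i, x (y.2 i) := by
      intro y
      rw [Fin.prod_univ_succ]
      simp [Fin.consEquiv]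
    constructor
    · rw [← (Fin.consEquiv (fun _ : Fin (m + 1) => J)).hasSum_iff]
      have h1 : (fun u : Fin (m + 1) → J => ∏ i, x (u i)) ∘
          (Fin.consEquiv (fun _ : Fin (m + 1) => J)) = fun y => x y.1 * ∏ i, x (y.2 i) := by
        funext y
        exact e1 y
      rw [h1, pow_succ', ← ih1.tsum_eq, tsum_mul_tsum_of_summable_norm hx ih2]
      exact (summable_mul_of_summable_norm hx ih2).hasSum
    · rw [← (Fin.consEquiv (fun _ : Fin (m + 1) => J)).summable_iff]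
      have h1 := Summable.mul_norm hx ih2
      refine h1.congr ?_
      intro y
      simp only [Function.comp]
      rw [e1]

/-- The real weight. -/
noncomputable def ww (h : ℝ) {m : ℕ} (u : Fin m → ℕ+) : ℝ := ∏ i, ((u i : ℕ) : ℝ) ^ (-(1 + h))

lemma ww_nonneg (h : ℝ) {m : ℕ} (u : Fin m → ℕ+) : 0 ≤ ww h u :=
  Finset.prod_nonneg fun i _ => by positivity

lemma ofReal_ww (h : ℝ) {m : ℕ} (u : Fin m → ℕ+) : ENNReal.ofReal (ww h u) = WW h u := by
  unfold ww WW wt
  exact ENNReal.ofReal_prod_of_nonneg fun i _ => by positivity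

/-- The Dirichlet L-function as an Euler product. -/
noncomputable def LL {q : ℕ} (ψ : DirichletCharacter ℂ q) (h : ℝ) : ℂ :=
  ∏' p : Nat.Primes, (1 - ψ p * (p:ℂ) ^ (-(1 + (h:ℂ))))⁻¹

lemma LL_eq {q : ℕ} (ψ : DirichletCharacter ℂ q) {h : ℝ} (hh : 0 < h) :
    (Summable fun n : ℕ+ => ‖ψ (n : ℕ) * ((((n : ℕ) : ℝ) ^ (-(1 + h)) : ℝ) : ℂ)‖) ∧
    LL ψ h = ∑' n : ℕ+, ψ (n : ℕ) * ((((n : ℕ) : ℝ) ^ (-(1 + h)) : ℝ) : ℂ) := by
  have hs : 1 < (1 + (h:ℂ)).re := by simp; exact hh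
  have hsum : Summable fun n : ℕ => ((n : ℝ) ^ (-(1 + h))) := Real.summable_nat_rpow.mpr (by linarith)
  constructor
  · have h1 : Summable fun n : ℕ+ => (((n : ℕ) : ℝ) ^ (-(1 + h))) :=
      hsum.comp_injective PNat.coe_injective
    refine Summable.of_nonneg_of_le (fun _ => norm_nonneg _) (fun n => ?_) h1
    rw [norm_mul, Complex.norm_real, Real.norm_of_nonneg (by positivity)]
    exact mul_le_of_le_one_left (by positivity) (ψ.norm_le_one _)
  · unfold LL
    rw [DirichletCharacter.LSeries_eulerProduct_tprod ψ hs]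
    unfold LSeries
    rw [← PNat.coe_injective.tsum_eq]
    · apply tsum_congr
      intro n
      rw [LSeries.term_of_ne_zero n.ne_zero, div_eq_mul_inv, ← Complex.cpow_neg,
        Complex.ofReal_cpow (Nat.cast_nonneg _)]
      push_cast
      rfl
    · intro n hn
      rw [Function.mem_support] at hn
      have h0 : n ≠ 0 := by
        rintro rfl
        simp at hn
      exact ⟨⟨n, Nat.pos_of_ne_zero h0⟩, rfl⟩

open Classical in
lemma orth {q : ℕ} [NeZero q] (a b : ℕ) :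
    ∑ ψ : DirichletCharacter ℂ q, ψ a * (starRingEnd ℂ) (ψ b) =
      if Cg q a b then (q.totient : ℂ) else 0 := by
  by_cases hb : IsUnit (b : ZMod q)
  · have h1 : ∀ ψ : DirichletCharacter ℂ q, ψ a * (starRingEnd ℂ) (ψ b) =
        ψ (b : ZMod q)⁻¹ * ψ (a : ZMod q) := by
      intro ψ
      have h2 : (starRingEnd ℂ) (ψ b) = ψ (b : ZMod q)⁻¹ := by
        have h3 : ψ (b : ZMod q) * ψ (b : ZMod q)⁻¹ = 1 := by
          rw [← map_mul, ZMod.mul_inv_of_unit _ hb, map_one]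
        have h4 : ‖ψ (b : ZMod q)‖ = 1 := by
          obtain ⟨v, hv⟩ := hb
          rw [← hv]
          exact DirichletCharacter.unit_norm_eq_one ψ v
        rw [eq_inv_of_mul_eq_one_right h3]
        exact (Complex.inv_eq_conj h4).symm
      rw [h2, mul_comm]
    simp_rw [h1]
    rw [DirichletCharacter.sum_char_inv_mul_char_eq ℂ hb]
    by_cases hab : (b : ZMod q) = (a : ZMod q)
    · rw [if_pos hab, if_pos ⟨hab.symm, hab ▸ hb⟩]
    · rw [if_neg hab, if_neg (fun h => hab h.1.symm)]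
  · have h1 : ∀ ψ : DirichletCharacter ℂ q, ψ (b : ZMod q) = 0 := fun ψ =>
      ψ.map_nonunit hb
    simp_rw [h1, map_zero, mul_zero, Finset.sum_const_zero]
    rw [if_neg]
    intro h
    exact hb (h.1 ▸ h.2)

open Classical in
/-- The even moments as a weighted count. -/
lemma moment_eq {q : ℕ} [NeZero q] {h : ℝ} (hh : 0 < h) (m : ℕ) :
    ENNReal.ofReal (∑ ψ : DirichletCharacter ℂ q, ‖LL ψ h‖ ^ (2 * m)) =
      (q.totient : ℝ≥0∞) * ∑' x : (Fin m → ℕ+) × (Fin m → ℕ+),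
        (if Cg q (FF x.1) (FF x.2) then WW h x.1 * WW h x.2 else 0) := by
  have hprod : ∀ (ψ : DirichletCharacter ℂ q) (u : Fin m → ℕ+),
      ∏ i, (ψ ((u i : ℕ)) * ((((u i : ℕ) : ℝ) ^ (-(1 + h)) : ℝ) : ℂ)) =
        ψ (FF u : ℕ) * (ww h u : ℂ) := by
    intro ψ u
    rw [Finset.prod_mul_distrib]
    unfold FF ww
    push_cast
    rw [map_prod]
  have h1 : ∀ ψ : DirichletCharacter ℂ q,
      HasSum (fun x : (Fin m → ℕ+) × (Fin m → ℕ+) =>
        (ψ (FF x.1 : ℕ) * (starRingEnd ℂ) (ψ (FF x.2 : ℕ))) * ((ww h x.1 * ww h x.2 : ℝ) : ℂ))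
        ((‖LL ψ h‖ ^ (2 * m) : ℝ) : ℂ) := by
    intro ψ
    obtain ⟨h2, h3⟩ := LL_eq ψ hh
    obtain ⟨h4, h5⟩ := hasSum_pi h2 m
    simp_rw [hprod] at h4 h5
    rw [← h3] at h4
    have h6 : HasSum (fun u : Fin m → ℕ+ => (starRingEnd ℂ) (ψ (FF u : ℕ) * (ww h u : ℂ)))
        ((starRingEnd ℂ) (LL ψ h ^ m)) := by
      exact h4.mapL (Complex.conjCLE : ℂ →L[ℝ] ℂ)
    have h7 : Summable (fun u : Fin m → ℕ+ =>
        ‖(starRingEnd ℂ) (ψ (FF u : ℕ) * (ww h u : ℂ))‖) := by
      simp_rw [RCLike.norm_conj]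
      exact h5
    have h8 := (summable_mul_of_summable_norm h5 h7).hasSum
    rw [← tsum_mul_tsum_of_summable_norm h5 h7, h4.tsum_eq, h6.tsum_eq] at h8
    have h9 : LL ψ h ^ m * (starRingEnd ℂ) (LL ψ h ^ m) = ((‖LL ψ h‖ ^ (2 * m) : ℝ) : ℂ) := by
      rw [Complex.mul_conj']
      push_cast
      rw [norm_pow]
      push_cast
      ring
    rw [h9] at h8
    refine h8.congr_fun ?_
    intro x
    rw [map_mul, Complex.conj_ofReal]
    push_cast
    ring
  have h2 := hasSum_sum (s := Finset.univ) (fun ψ (_ : ψ ∈ Finset.univ) => h1 ψ)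
  simp_rw [← Finset.sum_mul, orth] at h2
  have h3 : HasSum (fun x : (Fin m → ℕ+) × (Fin m → ℕ+) =>
      (if Cg q (FF x.1) (FF x.2) then (q.totient : ℝ) * (ww h x.1 * ww h x.2) else 0))
      (∑ ψ : DirichletCharacter ℂ q, ‖LL ψ h‖ ^ (2 * m)) := by
    have h4 := Complex.hasSum_re h2
    have h5 : (∑ ψ : DirichletCharacter ℂ q, ((‖LL ψ h‖ ^ (2 * m) : ℝ) : ℂ)).re =
        ∑ ψ : DirichletCharacter ℂ q, ‖LL ψ h‖ ^ (2 * m) := by
      rw [← Complex.ofReal_sum, Complex.ofReal_re]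
    rw [h5] at h4
    refine h4.congr_fun ?_
    intro x
    split_ifs
    · rw [← Complex.ofReal_natCast, ← Complex.ofReal_mul, Complex.ofReal_re]
    · simp
  rw [← h3.tsum_eq, ENNReal.ofReal_tsum_of_nonneg _ h3.summable, ← ENNReal.tsum_mul_left]
  · apply tsum_congr
    intro x
    split_ifs
    · rw [ENNReal.ofReal_mul (Nat.cast_nonneg _), ENNReal.ofReal_mul (ww_nonneg _ _), ofReal_ww,
        ofReal_ww, ENNReal.ofReal_natCast]
    · simp
  · intro x
    split_ifs
    · have := ww_nonneg h x.1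
      have := ww_nonneg h x.2
      positivity
    · exact le_rfl

end Pool.Agent.H81.ED
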