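import Mathlib
import Pool.Agent.H81.ED.Mean
import Pool.Agent.H91.Edge.Kron

/-!
# ED, Equi: equidistribution of characters on the torus
-/

set_option autoImplicit false

open Filter Topology

namespace Pool.Agent.H81.ED

open Pool.Agent.H91.Edge (tmean tmean_add tmean_smul norm_tmean_sub_le tmean_mFourier)

/-- A point of the circle group with given value. -/
noncomputable def pt (z : ℂ) : UnitAddCircle :=
  ((Complex.arg z / (2 * Real.pi) : ℝ) : UnitAddCircle)

lemma toCircle_pt {z : ℂ} (hz : ‖z‖ = 1) : (AddCircle.toCircle (pt z) : ℂ) = z := by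
  unfold pt
  rw [AddCircle.toCircle_apply_mk, Circle.coe_exp]
  have h1 : (2 * Real.pi / 1 * (Complex.arg z / (2 * Real.pi)) : ℝ) = Complex.arg z := by
    field_simp
  rw [h1]
  have h2 := Complex.norm_mul_exp_arg_mul_I z
  rw [hz, Complex.ofReal_one, one_mul] at h2
  exact h2

/-- The point of the torus given by a character and a height. -/
noncomputable def tp (y : ℕ) (t : ℝ) {q : ℕ} (ψ : DirichletCharacter ℂ q) :
    UnitAddTorus (Nat.primesBelow (y + 1)) :=
  fun p => pt (ψ ((p : ℕ) : ZMod q) * ((p : ℕ) : ℂ) ^ (-((t : ℂ) * Complex.I)))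

/-- No prime up to `y` divides `q`. -/
def Cop (y q : ℕ) : Prop := ∀ p ∈ Nat.primesBelow (y + 1), Nat.Coprime p q

lemma norm_char {y q : ℕ} (hc : Cop y q) (ψ : DirichletCharacter ℂ q)
    (p : Nat.primesBelow (y + 1)) : ‖ψ ((p : ℕ) : ZMod q)‖ = 1 := by
  obtain ⟨v, hv⟩ := (ZMod.isUnit_iff_coprime (p : ℕ) q).mpr (hc p p.2)
  rw [← hv]
  exact DirichletCharacter.unit_norm_eq_one ψ v

lemma norm_tI {n : ℕ} (hn : 0 < n) (t : ℝ) : ‖(n : ℂ) ^ (-((t : ℂ) * Complex.I))‖ = 1 := by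
  rw [Complex.norm_natCast_cpow_of_pos hn]
  simp

lemma toCircle_tp {y q : ℕ} (hc : Cop y q) (t : ℝ) (ψ : DirichletCharacter ℂ q)
    (p : Nat.primesBelow (y + 1)) : (AddCircle.toCircle (tp y t ψ p) : ℂ) =
      ψ ((p : ℕ) : ZMod q) * ((p : ℕ) : ℂ) ^ (-((t : ℂ) * Complex.I)) := by
  unfold tp
  apply toCircle_pt
  rw [norm_mul, norm_char hc, one_mul, norm_tI (Nat.prime_of_mem_primesBelow p.2).pos]

lemma zpow_unit {z : ℂ} (hz : ‖z‖ = 1) (n : ℤ) :
    z ^ n = z ^ n.toNat * (starRingEnd ℂ) (z ^ (-n).toNat) := by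
  have hinv : (starRingEnd ℂ) z = z⁻¹ := (Complex.inv_eq_conj hz).symm
  rcases le_total 0 n with h | h
  · obtain ⟨m, rfl⟩ := Int.eq_ofNat_of_zero_le h
    simp
  · obtain ⟨m, hm⟩ := Int.eq_ofNat_of_zero_le (neg_nonneg.mpr h)
    have hn : n = -(m : ℤ) := by omega
    subst hn
    rw [map_pow, hinv]
    simp

lemma mFourier_tp {y q : ℕ} (hc : Cop y q) (t : ℝ) (ψ : DirichletCharacter ℂ q)
    (n : Nat.primesBelow (y + 1) → ℤ) :
    UnitAddTorus.mFourier n (tp y t ψ) =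
      (∏ p : Nat.primesBelow (y + 1), (((p : ℕ) : ℂ) ^ (-((t : ℂ) * Complex.I))) ^ (n p)) *
      (ψ ((∏ p : Nat.primesBelow (y + 1), (p : ℕ) ^ (n p).toNat : ℕ) : ZMod q) *
        (starRingEnd ℂ) (ψ ((∏ p : Nat.primesBelow (y + 1), (p : ℕ) ^ (-(n p)).toNat : ℕ) :
          ZMod q))) := by
  have h1 : UnitAddTorus.mFourier n (tp y t ψ) = ∏ p : Nat.primesBelow (y + 1),
      (ψ ((p : ℕ) : ZMod q) * ((p : ℕ) : ℂ) ^ (-((t : ℂ) * Complex.I))) ^ (n p) := by
    unfold UnitAddTorus.mFourier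
    simp only [ContinuousMap.coe_mk]
    apply Finset.prod_congr rfl
    intro p _
    rw [fourier_apply, AddCircle.toCircle_zsmul, Circle.coe_zpow, toCircle_tp hc]
  rw [h1]
  simp_rw [mul_zpow]
  rw [Finset.prod_mul_distrib, mul_comm]
  congr 1
  push_cast
  rw [map_prod, map_prod, map_prod, ← Finset.prod_mul_distrib]
  apply Finset.prod_congr rfl
  intro p _
  rw [map_pow, map_pow]
  exact zpow_unit (norm_char hc ψ p) (n p)

lemma prod_inj {S : Finset ℕ} (hS : ∀ p ∈ S, p.Prime) {n : S → ℤ}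
    (h : ∏ p : S, (p : ℕ) ^ (n p).toNat = ∏ p : S, (p : ℕ) ^ (-(n p)).toNat) : n = 0 := by
  have key : ∀ (m : S → ℤ), (∏ p : S, (p : ℕ) ^ (m p).toNat = ∏ p : S, (p : ℕ) ^ (-(m p)).toNat) →
      ∀ p, m p ≤ 0 := by
    intro m hm p
    by_contra hcon
    push Not at hcon
    have h1 : (p : ℕ) ∣ ∏ p : S, (p : ℕ) ^ (m p).toNat := by
      refine dvd_trans ?_ (Finset.dvd_prod_of_mem _ (Finset.mem_univ p))
      exact dvd_pow_self _ (by omega)
    rw [hm, Prime.dvd_finset_prod_iff (hS p p.2).prime] at h1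
    obtain ⟨r, _, hr⟩ := h1
    have h2 := (hS p p.2).dvd_of_dvd_pow hr
    have h3 := (Nat.prime_dvd_prime_iff_eq (hS p p.2) (hS r r.2)).mp h2
    have h4 : p = r := Subtype.ext h3
    subst h4
    have h5 : (-(m p)).toNat = 0 := by omega
    rw [h5, pow_zero] at hr
    exact (hS p p.2).one_lt.ne' (Nat.dvd_one.mp hr)
  funext p
  have h1 := key n h p
  have h2 := key (fun p => -(n p)) (by simpa using h.symm) p
  simp only [Pi.zero_apply]
  omega

/-- Equidistribution. -/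
def EQ (y : ℕ) (F : C(UnitAddTorus (Nat.primesBelow (y + 1)), ℂ)) : Prop :=
  ∀ ε : ℝ, 0 < ε → ∃ Q : ℕ, ∀ (q : ℕ) [NeZero q], Q ≤ q → Cop y q → ∀ t : ℝ,
    ‖(∑ ψ : DirichletCharacter ℂ q, F (tp y t ψ)) / q.totient - tmean F‖ ≤ ε

lemma card_char (q : ℕ) [NeZero q] : Fintype.card (DirichletCharacter ℂ q) = q.totient := by
  have h1 := DirichletCharacter.card_eq_totient_of_hasEnoughRootsOfUnity ℂ q
  rwa [Nat.card_eq_fintype_card] at h1

lemma tot_pos (q : ℕ) [NeZero q] : (0:ℝ) < q.totient := by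
  exact_mod_cast Nat.totient_pos.mpr (Nat.pos_of_ne_zero (NeZero.ne q))

lemma EQ.add {y : ℕ} {F G : C(UnitAddTorus (Nat.primesBelow (y + 1)), ℂ)} (hF : EQ y F)
    (hG : EQ y G) : EQ y (F + G) := by
  intro ε hε
  obtain ⟨Q1, h1⟩ := hF (ε / 2) (by linarith)
  obtain ⟨Q2, h2⟩ := hG (ε / 2) (by linarith)
  refine ⟨max Q1 Q2, fun q _ hq hc t => ?_⟩
  have h3 := h1 q ((le_max_left _ _).trans hq) hc t
  have h4 := h2 q ((le_max_right _ _).trans hq) hc t
  have e : (∑ ψ : DirichletCharacter ℂ q, (F + G) (tp y t ψ)) / q.totient - tmean (F + G) =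
      ((∑ ψ : DirichletCharacter ℂ q, F (tp y t ψ)) / q.totient - tmean F) +
      ((∑ ψ : DirichletCharacter ℂ q, G (tp y t ψ)) / q.totient - tmean G) := by
    rw [tmean_add]
    simp only [ContinuousMap.add_apply, Finset.sum_add_distrib]
    ring
  rw [e]
  exact (norm_add_le _ _).trans (by linarith)

lemma EQ.smul {y : ℕ} {F : C(UnitAddTorus (Nat.primesBelow (y + 1)), ℂ)} (c : ℂ)
    (hF : EQ y F) : EQ y (c • F) := by
  intro ε hε
  obtain ⟨Q1, h1⟩ := hF (ε / (‖c‖ + 1)) (by positivity)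
  refine ⟨Q1, fun q _ hq hc t => ?_⟩
  have e : (∑ ψ : DirichletCharacter ℂ q, (c • F) (tp y t ψ)) / q.totient - tmean (c • F) =
      c * ((∑ ψ : DirichletCharacter ℂ q, F (tp y t ψ)) / q.totient - tmean F) := by
    rw [tmean_smul]
    simp only [ContinuousMap.smul_apply, smul_eq_mul, ← Finset.mul_sum]
    ring
  rw [e, norm_mul]
  have h3 := h1 q hq hc t
  calc _ ≤ ‖c‖ * (ε / (‖c‖ + 1)) := mul_le_mul_of_nonneg_left h3 (norm_nonneg _)
    _ ≤ (‖c‖ + 1) * (ε / (‖c‖ + 1)) := by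
        apply mul_le_mul_of_nonneg_right _ (by positivity)
        linarith
    _ = ε := by field_simp

lemma EQ.closed {y : ℕ} {F : C(UnitAddTorus (Nat.primesBelow (y + 1)), ℂ)}
    (h : ∀ ε : ℝ, 0 < ε → ∃ G : C(UnitAddTorus (Nat.primesBelow (y + 1)), ℂ),
      EQ y G ∧ ‖F - G‖ ≤ ε) : EQ y F := by
  intro ε hε
  obtain ⟨G, hG, hFG⟩ := h (ε / 3) (by linarith)
  obtain ⟨Q1, h1⟩ := hG (ε / 3) (by linarith)
  refine ⟨Q1, fun q _ hq hc t => ?_⟩
  have hp := tot_pos q
  have h3 := h1 q hq hc t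
  have h4 := norm_tmean_sub_le F G
  have h5 : ‖(∑ ψ : DirichletCharacter ℂ q, F (tp y t ψ)) / q.totient -
      (∑ ψ : DirichletCharacter ℂ q, G (tp y t ψ)) / q.totient‖ ≤ ε / 3 := by
    rw [← sub_div, ← Finset.sum_sub_distrib, norm_div, Complex.norm_natCast, div_le_iff₀ hp]
    refine (norm_sum_le _ _).trans ?_
    calc ∑ ψ : DirichletCharacter ℂ q, ‖F (tp y t ψ) - G (tp y t ψ)‖ ≤
          ∑ _ψ : DirichletCharacter ℂ q, ε / 3 := Finset.sum_le_sum fun ψ _ =>
            ((F - G).norm_coe_le_norm (tp y t ψ)).trans hFG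
      _ = ε / 3 * q.totient := by
            rw [Finset.sum_const, Finset.card_univ, card_char, nsmul_eq_mul]
            ring
  have e : (∑ ψ : DirichletCharacter ℂ q, F (tp y t ψ)) / q.totient - tmean F =
      ((∑ ψ : DirichletCharacter ℂ q, F (tp y t ψ)) / q.totient -
        (∑ ψ : DirichletCharacter ℂ q, G (tp y t ψ)) / q.totient) +
      ((∑ ψ : DirichletCharacter ℂ q, G (tp y t ψ)) / q.totient - tmean G) +
      (tmean G - tmean F) := by ring
  rw [e]
  refine norm_add₃_le.trans ?_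
  rw [norm_sub_rev (tmean G)]
  linarith

lemma EQ_mFourier (y : ℕ) (n : Nat.primesBelow (y + 1) → ℤ) :
    EQ y (UnitAddTorus.mFourier n) := by
  intro ε hε
  set A : ℕ := ∏ p : Nat.primesBelow (y + 1), (p : ℕ) ^ (n p).toNat with hA
  set B : ℕ := ∏ p : Nat.primesBelow (y + 1), (p : ℕ) ^ (-(n p)).toNat with hB
  refine ⟨A + B + 1, fun q _ hq hc t => ?_⟩
  have hp := tot_pos q
  by_cases hn : n = 0
  · subst hn
    rw [tmean_mFourier, if_pos rfl, UnitAddTorus.mFourier_zero]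
    simp only [ContinuousMap.one_apply, Finset.sum_const, Finset.card_univ, card_char,
      nsmul_eq_mul, mul_one]
    rw [div_self (by exact_mod_cast hp.ne'), sub_self, norm_zero]
    exact hε.le
  · rw [tmean_mFourier, if_neg hn, sub_zero]
    simp_rw [mFourier_tp hc, ← hA, ← hB]
    rw [← Finset.mul_sum, orth, if_neg, mul_zero, zero_div, norm_zero]
    · exact hε.le
    · intro hCg
      apply hn
      apply prod_inj (fun p hp => Nat.prime_of_mem_primesBelow hp)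
      have h1 : A ≡ B [MOD q] := (ZMod.natCast_eq_natCast_iff _ _ _).mp hCg.1
      exact Nat.ModEq.eq_of_lt_of_lt h1 (by omega) (by omega)

theorem equi (y : ℕ) (F : C(UnitAddTorus (Nat.primesBelow (y + 1)), ℂ)) : EQ y F := by
  apply EQ.closed
  intro ε hε
  have h1 : F ∈ (Submodule.span ℂ (Set.range (UnitAddTorus.mFourier
      (d := Nat.primesBelow (y + 1))))).topologicalClosure := by
    rw [UnitAddTorus.span_mFourier_closure_eq_top]
    trivial
  have h2 : F ∈ closure ((Submodule.span ℂ (Set.range (UnitAddTorus.mFourier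
      (d := Nat.primesBelow (y + 1)))) : Submodule ℂ C(UnitAddTorus (Nat.primesBelow (y + 1)), ℂ)) :
        Set C(UnitAddTorus (Nat.primesBelow (y + 1)), ℂ)) := h1
  rw [Metric.mem_closure_iff] at h2
  obtain ⟨G, hG, hd⟩ := h2 ε hε
  refine ⟨G, ?_, ?_⟩
  · refine Submodule.span_induction ?_ ?_ ?_ ?_ hG
    · rintro _ ⟨n, rfl⟩
      exact EQ_mFourier y n
    · have h0 := (EQ_mFourier y 0).smul (0:ℂ)
      have e : (0:ℂ) • UnitAddTorus.mFourier (0 : Nat.primesBelow (y + 1) → ℤ) = 0 := by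
        ext x
        simp
      rw [e] at h0
      exact h0
    · intro x z _ _ hx hz
      exact hx.add hz
    · intro c x _ hx
      exact hx.smul c
  · rw [← dist_eq_norm]
    exact hd.le

end Pool.Agent.H81.ED
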