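import Mathlib
import Pool.Agent.H81.ED.Mean

/-!
# ED, Bound: the even moments are bounded at distance `q ^ (-1/(2m^2))` from the edge
-/

set_option autoImplicit false

open scoped ENNReal

namespace Pool.Agent.H81.ED

lemma ZZ_le {h : ℝ} (hh : 0 < h) (h1 : h ≤ 1) : ZZ h ≤ ENNReal.ofReal (2 / h) := by
  have hs : (1:ℝ) < 1 + h := by linarith
  have h2 := ZetaAsymptotics.zeta_limit_aux1 hs
  have h3 : 0 ≤ ZetaAsymptotics.termTSum (1 + h) :=
    tsum_nonneg fun n => ZetaAsymptotics.term_nonneg _ _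
  have h4 : (∑' n : ℕ, 1 / (n + 1 : ℝ) ^ (1 + h)) ≤ 2 / h := by
    have h5 : 1 / (1 + h - 1) = 1 / h := by
      congr 1
      ring
    rw [h5] at h2
    have h6 : 0 ≤ (1 + h) * ZetaAsymptotics.termTSum (1 + h) := by positivity
    have h7 : 1 ≤ 1 / h := by
      rw [le_div_iff₀ hh]
      linarith
    have h8 : 2 / h = 1 / h + 1 / h := by ring
    rw [h8]
    linarith
  have h5 : ZZ h = ENNReal.ofReal (∑' n : ℕ, 1 / (n + 1 : ℝ) ^ (1 + h)) := by
    unfold ZZ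
    rw [ENNReal.ofReal_tsum_of_nonneg, ← Equiv.pnatEquivNat.symm.tsum_eq]
    · apply tsum_congr
      intro n
      unfold wt
      congr 1
      have h6 : ((Equiv.pnatEquivNat.symm n : ℕ+) : ℕ) = n + 1 := rfl
      rw [h6, Real.rpow_neg (by positivity), one_div]
      push_cast
      rfl
    · intro n
      positivity
    · have h6 := (Real.summable_nat_rpow (p := -(1 + h))).mpr (by linarith)
      have h7 := (summable_nat_add_iff 1).mpr h6
      refine h7.congr ?_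
      intro n
      rw [Real.rpow_neg (by positivity), one_div]
      push_cast
      rfl
  rw [h5]
  exact ENNReal.ofReal_le_ofReal h4

lemma DD_ne_top (m : ℕ) : DD m ≠ ⊤ := by
  have h1 := ZZ_le one_pos le_rfl
  have h2 : ZZ 1 ≠ ⊤ := ne_top_of_le_ne_top ENNReal.ofReal_ne_top h1
  unfold DD
  exact ENNReal.pow_ne_top (ENNReal.pow_ne_top h2)

lemma off_bound {q n : ℕ} (hq : 0 < q) {h : ℝ}
    (hlow : (q : ℝ) ^ (-(1 / (2 * ((n:ℝ) + 1) ^ 2))) ≤ h) (h1 : h ≤ 1) :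
    BB q (n + 1) h * ZZ h ^ n * ZZ h ^ (n + 1) ≤ ENNReal.ofReal (3 * 2 ^ (2 * n + 1)) := by
  have hq0 : (0:ℝ) < (q : ℝ) := by exact_mod_cast hq
  have hq1 : (1:ℝ) ≤ (q : ℝ) := by exact_mod_cast hq
  have hh : 0 < h := (Real.rpow_pos_of_pos hq0 _).trans_le hlow
  set a : ℝ := 1 / (2 * ((n:ℝ) + 1) ^ 2) with ha
  have hn1 : (0:ℝ) < (n:ℝ) + 1 := by positivity
  have hZ : ZZ h ≤ ENNReal.ofReal (2 * (q:ℝ) ^ a) := by
    refine (ZZ_le hh h1).trans (ENNReal.ofReal_le_ofReal ?_)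
    rw [div_eq_mul_inv]
    apply mul_le_mul_of_nonneg_left _ (by norm_num)
    rw [Real.rpow_neg hq0.le] at hlow
    exact (inv_le_comm₀ hh (Real.rpow_pos_of_pos hq0 _)).mpr hlow
  have hB : BB q (n + 1) h ≤ ENNReal.ofReal ((q:ℝ) ^ (-(1 / ((n:ℝ) + 1))) +
      (q:ℝ)⁻¹ * (2 * (q:ℝ) ^ a)) := by
    unfold BB
    rw [ENNReal.ofReal_add (by positivity) (by positivity), ENNReal.ofReal_mul (by positivity)]
    push_cast
    gcongr
  calc BB q (n + 1) h * ZZ h ^ n * ZZ h ^ (n + 1)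
      ≤ ENNReal.ofReal ((q:ℝ) ^ (-(1 / ((n:ℝ) + 1))) + (q:ℝ)⁻¹ * (2 * (q:ℝ) ^ a)) *
          ENNReal.ofReal (2 * (q:ℝ) ^ a) ^ n * ENNReal.ofReal (2 * (q:ℝ) ^ a) ^ (n + 1) := by
        gcongr
    _ = ENNReal.ofReal (((q:ℝ) ^ (-(1 / ((n:ℝ) + 1))) + (q:ℝ)⁻¹ * (2 * (q:ℝ) ^ a)) *
          (2 * (q:ℝ) ^ a) ^ n * (2 * (q:ℝ) ^ a) ^ (n + 1)) := by
        rw [← ENNReal.ofReal_pow (by positivity), ← ENNReal.ofReal_pow (by positivity),
          ← ENNReal.ofReal_mul (by positivity), ← ENNReal.ofReal_mul (by positivity)]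
    _ ≤ ENNReal.ofReal (3 * 2 ^ (2 * n + 1)) := by
        apply ENNReal.ofReal_le_ofReal
        have e1 : (2 * (q:ℝ) ^ a) ^ n * (2 * (q:ℝ) ^ a) ^ (n + 1) =
            2 ^ (2 * n + 1) * (q:ℝ) ^ (a * (2 * n + 1)) := by
          rw [← pow_add, mul_pow, show n + (n + 1) = 2 * n + 1 by ring, ← Real.rpow_natCast
            ((q:ℝ) ^ a), ← Real.rpow_mul hq0.le]
          push_cast
          rfl
        rw [mul_assoc, e1]
        have e2 : (q:ℝ) ^ (-(1 / ((n:ℝ) + 1))) * (q:ℝ) ^ (a * (2 * n + 1)) ≤ 1 := by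
          rw [← Real.rpow_add hq0]
          apply Real.rpow_le_one_of_one_le_of_nonpos hq1
          have e3 : a * (2 * n + 1) = (2 * n + 1) / (2 * ((n:ℝ) + 1) ^ 2) := by
            rw [ha]
            ring
          rw [e3]
          have e4 : (2 * (n:ℝ) + 1) / (2 * ((n:ℝ) + 1) ^ 2) ≤ 1 / ((n:ℝ) + 1) := by
            rw [div_le_div_iff₀ (by positivity) hn1]
            nlinarith
          linarith
        have e3 : (q:ℝ)⁻¹ * (q:ℝ) ^ a * (q:ℝ) ^ (a * (2 * n + 1)) ≤ 1 := by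
          rw [← Real.rpow_neg_one, ← Real.rpow_add hq0, ← Real.rpow_add hq0]
          apply Real.rpow_le_one_of_one_le_of_nonpos hq1
          have e4 : a * (2 * (n:ℝ) + 2) ≤ 1 := by
            rw [ha, one_div, ← div_eq_inv_mul, div_le_one (by positivity)]
            nlinarith [Nat.cast_nonneg (α := ℝ) n]
          linarith
        have e5 : (0:ℝ) < 2 ^ (2 * n + 1) := by positivity
        calc ((q:ℝ) ^ (-(1 / ((n:ℝ) + 1))) + (q:ℝ)⁻¹ * (2 * (q:ℝ) ^ a)) *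
              (2 ^ (2 * n + 1) * (q:ℝ) ^ (a * (2 * n + 1)))
            = 2 ^ (2 * n + 1) * ((q:ℝ) ^ (-(1 / ((n:ℝ) + 1))) * (q:ℝ) ^ (a * (2 * n + 1)) +
                2 * ((q:ℝ)⁻¹ * (q:ℝ) ^ a * (q:ℝ) ^ (a * (2 * n + 1)))) := by ring
          _ ≤ 2 ^ (2 * n + 1) * (1 + 2 * 1) := by gcongr
          _ = 3 * 2 ^ (2 * n + 1) := by ring

/-- The even moments are bounded. -/
theorem even_moment (n : ℕ) : ∃ C : ℝ, 0 ≤ C ∧ ∀ (q : ℕ) [NeZero q] (h : ℝ),
    (q : ℝ) ^ (-(1 / (2 * ((n:ℝ) + 1) ^ 2))) ≤ h → h ≤ 1 →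
    ∑ ψ : DirichletCharacter ℂ q, ‖LL ψ h‖ ^ (2 * (n + 1)) ≤ C * q.totient := by
  refine ⟨(DD (n + 1)).toReal + 2 * ((n + 1) * (3 * 2 ^ (2 * n + 1))), by positivity, ?_⟩
  intro q hq h hlow h1
  have hq0 : 0 < q := Nat.pos_of_ne_zero hq.out
  have hh : 0 < h := (Real.rpow_pos_of_pos (by exact_mod_cast hq0) _).trans_le hlow
  have h2 := moment_eq (q := q) hh (n + 1)
  have h3 := count_le (q := q) (n := n) hq0 hh
  have h4 := off_bound hq0 hlow h1
  have h5 : ENNReal.ofReal (∑ ψ : DirichletCharacter ℂ q, ‖LL ψ h‖ ^ (2 * (n + 1))) ≤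
      ENNReal.ofReal (((DD (n + 1)).toReal + 2 * ((n + 1) * (3 * 2 ^ (2 * n + 1)))) *
        q.totient) := by
    rw [h2, ENNReal.ofReal_mul (by positivity), ENNReal.ofReal_add ENNReal.toReal_nonneg
      (by positivity), ENNReal.ofReal_toReal (DD_ne_top _), ENNReal.ofReal_mul (by norm_num),
      ENNReal.ofReal_mul (by positivity), ENNReal.ofReal_natCast, mul_comm]
    apply mul_le_mul_left
    refine h3.trans ?_
    have e1 : ENNReal.ofReal ((n:ℝ) + 1) = ((n + 1 : ℕ) : ℝ≥0∞) := by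
      rw [← ENNReal.ofReal_natCast]
      push_cast
      rfl
    have e2 : ENNReal.ofReal 2 = 2 := by simp
    rw [e1, e2]
    gcongr
  exact (ENNReal.ofReal_le_ofReal_iff (by positivity)).mp h5

end Pool.Agent.H81.ED
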