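import Mathlib

/-!
# ED, Maj: the majorant principle for families of completely multiplicative functions
-/

set_option autoImplicit false

open Complex MeasureTheory Filter Topology

namespace Pool.Agent.H81.ED

/-- A finite family of completely multiplicative functions of positive type. -/
structure Fam {Ω : Type} [MeasurableSpace Ω] (μ : Measure Ω) (e : Ω → ℕ → ℂ) : Prop where
  fin : IsFiniteMeasure μ
  one : ∀ ω, e ω 1 = 1
  mul : ∀ ω m n, e ω (m * n) = e ω m * e ω n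
  le : ∀ ω n, ‖e ω n‖ ≤ 1
  meas : ∀ n, Measurable fun ω => e ω n
  pos : ∀ m n : ℕ, 0 < m → 0 < n →
    ∃ r : ℝ, 0 ≤ r ∧ ∫ ω, e ω m * (starRingEnd ℂ) (e ω n) ∂μ = (r : ℂ)

/-- The monomials. -/
noncomputable def EE {Ω : Type} (e : Ω → ℕ → ℂ) (a : ℕ × ℕ) (ω : Ω) : ℂ :=
  e ω a.1 * (starRingEnd ℂ) (e ω a.2)

/-- Series of monomials. -/
noncomputable def TS {Ω J : Type} (e : Ω → ℕ → ℂ) (c : J → ℂ) (ν : J → ℕ × ℕ) (ω : Ω) : ℂ :=
  ∑' j, c j * EE e (ν j) ω

section

variable {Ω : Type} [MeasurableSpace Ω] {μ : Measure Ω} {e : Ω → ℕ → ℂ}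

lemma EE_le (F : Fam μ e) (a : ℕ × ℕ) (ω : Ω) : ‖EE e a ω‖ ≤ 1 := by
  unfold EE
  rw [norm_mul, RCLike.norm_conj]
  exact mul_le_one₀ (F.le _ _) (norm_nonneg _) (F.le _ _)

lemma EE_mul (F : Fam μ e) (a b : ℕ × ℕ) (ω : Ω) : EE e (a * b) ω = EE e a ω * EE e b ω := by
  unfold EE
  rw [Prod.fst_mul, Prod.snd_mul, F.mul, F.mul, map_mul]
  ring

lemma EE_one (F : Fam μ e) (ω : Ω) : EE e 1 ω = 1 := by
  unfold EE
  simp [F.one]

omit [MeasurableSpace Ω] in
lemma EE_swap (a : ℕ × ℕ) (ω : Ω) : EE e a.swap ω = (starRingEnd ℂ) (EE e a ω) := by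
  unfold EE
  rw [map_mul, Complex.conj_conj, mul_comm]
  rfl

lemma EE_meas (F : Fam μ e) (a : ℕ × ℕ) : Measurable (EE e a) := by
  unfold EE
  exact (F.meas _).mul (Complex.continuous_conj.measurable.comp (F.meas _))

lemma norm_term_le (F : Fam μ e) {J : Type} (c : J → ℂ) (ν : J → ℕ × ℕ) (ω : Ω) (j : J) :
    ‖c j * EE e (ν j) ω‖ ≤ ‖c j‖ := by
  rw [norm_mul]
  exact mul_le_of_le_one_right (norm_nonneg _) (EE_le F _ _)

lemma summable_TS (F : Fam μ e) {J : Type} {c : J → ℂ} {C : J → ℝ} (hC : Summable C)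
    (hc : ∀ j, ‖c j‖ ≤ C j) (ν : J → ℕ × ℕ) (ω : Ω) : Summable fun j => c j * EE e (ν j) ω :=
  Summable.of_norm_bounded hC fun j => (norm_term_le F c ν ω j).trans (hc j)

lemma norm_TS_le (F : Fam μ e) {J : Type} {c : J → ℂ} {C : J → ℝ} (hC : Summable C)
    (hc : ∀ j, ‖c j‖ ≤ C j) (ν : J → ℕ × ℕ) (ω : Ω) : ‖TS e c ν ω‖ ≤ ∑' j, C j :=
  tsum_of_norm_bounded hC.hasSum fun j => (norm_term_le F c ν ω j).trans (hc j)

lemma meas_TS (F : Fam μ e) {J : Type} [Countable J] {c : J → ℂ} {C : J → ℝ} (hC : Summable C)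
    (hc : ∀ j, ‖c j‖ ≤ C j) (ν : J → ℕ × ℕ) : Measurable (TS e c ν) := by
  have h1 : Tendsto (fun (s : Finset J) (ω : Ω) => ∑ j ∈ s, c j * EE e (ν j) ω) atTop
      (𝓝 (TS e c ν)) := by
    rw [tendsto_pi_nhds]
    intro ω
    exact (summable_TS F hC hc ν ω).hasSum
  refine measurable_of_tendsto_metrizable' atTop (fun s => ?_) h1
  exact Finset.measurable_fun_sum s fun j _ => (EE_meas F _).const_mul _

/-- Majorization of absolutely convergent series of monomials. -/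
def Maj (e : Ω → ℕ → ℂ) (φ Φ : Ω → ℂ) : Prop :=
  ∃ (J : Type) (c : J → ℂ) (C : J → ℝ) (ν : J → ℕ × ℕ), Countable J ∧ Summable C ∧
    (∀ j, ‖c j‖ ≤ C j) ∧ (∀ j, 0 < (ν j).1 ∧ 0 < (ν j).2) ∧
    (∀ ω, φ ω = TS e c ν ω) ∧ (∀ ω, Φ ω = TS e (fun j => (C j : ℂ)) ν ω)

lemma norm_ofReal_le {J : Type} {c : J → ℂ} {C : J → ℝ} (hc : ∀ j, ‖c j‖ ≤ C j) (j : J) :
    ‖((C j : ℝ) : ℂ)‖ ≤ C j := by
  rw [Complex.norm_real, Real.norm_of_nonneg ((norm_nonneg _).trans (hc j))]

lemma Maj.one (F : Fam μ e) : Maj e (fun _ => 1) (fun _ => 1) := by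
  refine ⟨Unit, fun _ => 1, fun _ => 1, fun _ => 1, inferInstance, ?_, ?_, ?_, ?_, ?_⟩
  · exact (hasSum_fintype _).summable
  · intro j; simp
  · intro j; simp
  · intro ω; simp [TS, EE_one F]
  · intro ω; simp [TS, EE_one F]

lemma TS_mul (F : Fam μ e) {J K : Type} {c : J → ℂ} {C : J → ℝ} {d : K → ℂ} {D : K → ℝ}
    (hC : Summable C) (hc : ∀ j, ‖c j‖ ≤ C j) (hD : Summable D) (hd : ∀ k, ‖d k‖ ≤ D k)
    (ν : J → ℕ × ℕ) (κ : K → ℕ × ℕ) (ω : Ω) :
    TS e c ν ω * TS e d κ ω =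
      TS e (fun x : J × K => c x.1 * d x.2) (fun x => ν x.1 * κ x.2) ω := by
  unfold TS
  rw [tsum_mul_tsum_of_summable_norm]
  · apply tsum_congr
    intro x
    rw [EE_mul F]
    ring
  · exact Summable.of_nonneg_of_le (fun _ => norm_nonneg _)
      (fun j => (norm_term_le F c ν ω j).trans (hc j)) hC
  · exact Summable.of_nonneg_of_le (fun _ => norm_nonneg _)
      (fun j => (norm_term_le F d κ ω j).trans (hd j)) hD

lemma Maj.mul (F : Fam μ e) {φ Φ ψ Ψ : Ω → ℂ} (h1 : Maj e φ Φ) (h2 : Maj e ψ Ψ) :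
    Maj e (fun t => φ t * ψ t) (fun t => Φ t * Ψ t) := by
  obtain ⟨J, c, C, ν, hJ, hC, hc, hν, h3, h4⟩ := h1
  obtain ⟨K, d, D, κ, hK, hD, hd, hκ, h5, h6⟩ := h2
  have hC0 : ∀ j, 0 ≤ C j := fun j => (norm_nonneg _).trans (hc j)
  have hD0 : ∀ j, 0 ≤ D j := fun j => (norm_nonneg _).trans (hd j)
  refine ⟨J × K, fun x => c x.1 * d x.2, fun x => C x.1 * D x.2, fun x => ν x.1 * κ x.2,
    inferInstance, hC.mul_of_nonneg hD hC0 hD0, ?_, ?_, ?_, ?_⟩
  · intro x
    rw [norm_mul]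
    exact mul_le_mul (hc _) (hd _) (norm_nonneg _) (hC0 _)
  · intro x
    exact ⟨Nat.mul_pos (hν _).1 (hκ _).1, Nat.mul_pos (hν _).2 (hκ _).2⟩
  · intro t
    show φ t * ψ t = _
    rw [h3, h5, TS_mul F hC hc hD hd]
  · intro t
    show Φ t * Ψ t = _
    rw [h4, h6, TS_mul F hC (norm_ofReal_le hc) hD (norm_ofReal_le hd)]
    unfold TS
    apply tsum_congr
    intro x
    push_cast
    ring

lemma Maj.pow (F : Fam μ e) {φ Φ : Ω → ℂ} (h : Maj e φ Φ) (m : ℕ) :
    Maj e (fun t => φ t ^ m) (fun t => Φ t ^ m) := by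
  induction m with
  | zero => simpa using Maj.one F
  | succ m ih =>
    simp_rw [pow_succ]
    exact ih.mul F h

lemma integral_TS (F : Fam μ e) {J : Type} [Countable J] {c : J → ℂ} {C : J → ℝ}
    (hC : Summable C) (hc : ∀ j, ‖c j‖ ≤ C j) (ν : J → ℕ × ℕ) :
    HasSum (fun j => c j * ∫ ω, EE e (ν j) ω ∂μ) (∫ ω, TS e c ν ω ∂μ) := by
  have := F.fin
  have hF : ∀ j, Integrable (fun ω => c j * EE e (ν j) ω) μ := by
    intro j
    refine Integrable.of_bound ((EE_meas F _).const_mul _).aestronglyMeasurable ‖c j‖ ?_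
    filter_upwards with ω
    exact norm_term_le F c ν ω j
  have hs := MeasureTheory.hasSum_integral_of_summable_integral_norm hF (by
    refine Summable.of_nonneg_of_le (fun j => integral_nonneg fun ω => norm_nonneg _)
      (fun j => ?_) (hC.mul_right (μ.real Set.univ))
    have h1 : ∫ ω, ‖c j * EE e (ν j) ω‖ ∂μ ≤ ∫ _ω, C j ∂μ := by
      apply integral_mono (hF j).norm (integrable_const _)
      intro ω
      exact (norm_term_le F c ν ω j).trans (hc j)
    rw [integral_const, smul_eq_mul, mul_comm] at h1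
    exact h1)
  simp_rw [integral_const_mul] at hs
  exact hs

lemma Maj.bound (F : Fam μ e) {φ Φ : Ω → ℂ} (h : Maj e φ Φ) :
    ‖∫ ω, φ ω ∂μ‖ ≤ (∫ ω, Φ ω ∂μ).re := by
  obtain ⟨J, c, C, ν, hJ, hC, hc, hν, h3, h4⟩ := h
  simp_rw [h3, h4]
  have h1 := integral_TS F hC hc ν
  have h2 := integral_TS F hC (norm_ofReal_le hc) ν
  have hp : ∀ j, ∃ r : ℝ, 0 ≤ r ∧ ∫ ω, EE e (ν j) ω ∂μ = (r : ℂ) := fun j =>
    F.pos _ _ (hν j).1 (hν j).2
  choose r hr0 hr using hp
  simp_rw [hr] at h1 h2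
  have h5 := Complex.hasSum_re h2
  have h6 : ∀ j, (((C j : ℝ) : ℂ) * ((r j : ℝ) : ℂ)).re = C j * r j := by
    intro j
    rw [← Complex.ofReal_mul, Complex.ofReal_re]
  simp_rw [h6] at h5
  rw [← h1.tsum_eq]
  apply tsum_of_norm_bounded h5
  intro j
  rw [norm_mul, Complex.norm_real, Real.norm_of_nonneg (hr0 _)]
  exact mul_le_mul_of_nonneg_right (hc j) (hr0 _)

/-- Real parts. -/
lemma Maj.re (F : Fam μ e) {J : Type} [Countable J] {c : J → ℂ} {C : J → ℝ} (hC : Summable C)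
    (hc : ∀ j, ‖c j‖ ≤ C j) {ν : J → ℕ × ℕ} (hν : ∀ j, 0 < (ν j).1 ∧ 0 < (ν j).2) :
    Maj e (fun t => (((TS e c ν t).re : ℝ) : ℂ))
      (fun t => (((TS e (fun j => (C j : ℂ)) ν t).re : ℝ) : ℂ)) := by
  have key : ∀ (d : J → ℂ), (∀ j, ‖d j‖ ≤ C j) → ∀ t, (((TS e d ν t).re : ℝ) : ℂ) =
      TS e (fun x : J × Bool => if x.2 then d x.1 / 2 else (starRingEnd ℂ) (d x.1) / 2)
        (fun x => if x.2 then ν x.1 else (ν x.1).swap) t := by
    intro d hd t
    have hs : Summable (fun j => d j * EE e (ν j) t) := summable_TS F hC hd ν t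
    have hs2 : Summable (fun x : J × Bool =>
        (if x.2 then d x.1 / 2 else (starRingEnd ℂ) (d x.1) / 2) *
        EE e (if x.2 then ν x.1 else (ν x.1).swap) t) := by
      have hprod : Summable (fun x : J × Bool => C x.1 * (1:ℝ)) := by
        have := hC.mul_of_nonneg (g := fun _ : Bool => (1:ℝ)) (hasSum_fintype _).summable
          (fun j => (norm_nonneg _).trans (hc j)) (fun _ => zero_le_one)
        exact this
      refine Summable.of_norm_bounded hprod ?_
      rintro ⟨j, b⟩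
      rw [mul_one, norm_mul]
      have h0 := hd j
      have hn := norm_nonneg (d j)
      cases b
      · simp only [Bool.false_eq_true, if_false, norm_div, RCLike.norm_conj, Complex.norm_ofNat]
        have h1 := EE_le F (ν j).swap t
        nlinarith [norm_nonneg (EE e (ν j).swap t)]
      · simp only [if_true, norm_div, Complex.norm_ofNat]
        have h1 := EE_le F (ν j) t
        nlinarith [norm_nonneg (EE e (ν j) t)]
    unfold TS
    rw [hs2.tsum_prod]
    simp only [tsum_bool, Bool.false_eq_true, if_false, if_true]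
    have e1 : ∀ j, (starRingEnd ℂ) (d j) / 2 * EE e (ν j).swap t + d j / 2 * EE e (ν j) t
        = (((d j * EE e (ν j) t).re : ℝ) : ℂ) := by
      intro j
      rw [Complex.re_eq_add_conj, map_mul, EE_swap]
      ring
    simp_rw [e1]
    rw [← Complex.ofReal_tsum, ← Complex.re_tsum hs]
  refine ⟨J × Bool, _, fun x => C x.1 / 2, _, inferInstance, ?_, ?_, ?_, key c hc, ?_⟩
  · have := hC.mul_of_nonneg (g := fun _ : Bool => (1/2:ℝ)) (hasSum_fintype _).summable
      (fun j => (norm_nonneg _).trans (hc j)) (fun _ => by norm_num)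
    refine this.congr ?_
    intro x
    ring
  · rintro ⟨j, b⟩
    have h0 := hc j
    cases b
    · simp only [Bool.false_eq_true, if_false, norm_div, RCLike.norm_conj, Complex.norm_ofNat]
      linarith
    · simp only [if_true, norm_div, Complex.norm_ofNat]
      linarith
  · rintro ⟨j, b⟩
    cases b
    · simp only [Bool.false_eq_true, if_false, Prod.fst_swap, Prod.snd_swap]
      exact ⟨(hν j).2, (hν j).1⟩
    · simpa using hν j
  · intro t
    show (((TS e (fun j => (C j : ℂ)) ν t).re : ℝ) : ℂ) = _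
    rw [key _ (norm_ofReal_le hc) t]
    congr 1
    funext x
    rcases x with ⟨j, b⟩
    cases b <;> simp

/-- The exponential majorant principle. -/
theorem exp_maj (F : Fam μ e) {J : Type} [Countable J] {c : J → ℂ} {C : J → ℝ} (hC : Summable C)
    (hc : ∀ j, ‖c j‖ ≤ C j) {ν : J → ℕ × ℕ} (hν : ∀ j, 0 < (ν j).1 ∧ 0 < (ν j).2) :
    ∫ ω, Real.exp (TS e c ν ω).re ∂μ ≤ ∫ ω, Real.exp (TS e (fun j => (C j : ℂ)) ν ω).re ∂μ := by
  have := F.fin
  set M : ℝ := ∑' j, C j with hM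
  have hM0 : 0 ≤ M := tsum_nonneg fun j => (norm_nonneg _).trans (hc j)
  have hexp : ∀ (d : J → ℂ), (∀ j, ‖d j‖ ≤ C j) →
      HasSum (fun m : ℕ => (∫ ω, (TS e d ν ω).re ^ m ∂μ) / (m.factorial : ℝ))
        (∫ ω, Real.exp (TS e d ν ω).re ∂μ) := by
    intro d hd
    have hmeas : Measurable fun ω => (TS e d ν ω).re :=
      Complex.measurable_re.comp (meas_TS F hC hd ν)
    have hbd : ∀ ω, |(TS e d ν ω).re| ≤ M := fun ω =>
      (Complex.abs_re_le_norm _).trans (norm_TS_le F hC hd ν ω)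
    have hF : ∀ m : ℕ, Integrable (fun ω => (TS e d ν ω).re ^ m / (m.factorial : ℝ)) μ := by
      intro m
      refine Integrable.of_bound ((hmeas.pow_const m).div_const _).aestronglyMeasurable
        (M ^ m / (m.factorial : ℝ)) ?_
      filter_upwards with ω
      rw [norm_div, norm_pow, Real.norm_eq_abs, Real.norm_natCast]
      exact div_le_div_of_nonneg_right (pow_le_pow_left₀ (abs_nonneg _) (hbd ω) m) (by positivity)
    have hsum : Summable fun m : ℕ => ∫ ω, ‖(TS e d ν ω).re ^ m / (m.factorial : ℝ)‖ ∂μ := by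
      have h1 : Summable fun m : ℕ => μ.real Set.univ * (M ^ m / (m.factorial : ℝ)) :=
        (Real.summable_pow_div_factorial M).mul_left _
      refine Summable.of_nonneg_of_le (fun m => integral_nonneg fun ω => norm_nonneg _)
        (fun m => ?_) h1
      have h2 : ∫ ω, ‖(TS e d ν ω).re ^ m / (m.factorial : ℝ)‖ ∂μ ≤
          ∫ _ω, M ^ m / (m.factorial : ℝ) ∂μ := by
        apply integral_mono (hF m).norm (integrable_const _)
        intro ω
        simp only
        rw [norm_div, norm_pow, Real.norm_eq_abs, Real.norm_natCast]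
        exact div_le_div_of_nonneg_right (pow_le_pow_left₀ (abs_nonneg _) (hbd ω) m)
          (by positivity)
      rw [integral_const, smul_eq_mul] at h2
      exact h2
    have h2 := MeasureTheory.hasSum_integral_of_summable_integral_norm hF hsum
    have e1 : ∀ ω, ∑' m : ℕ, (TS e d ν ω).re ^ m / (m.factorial : ℝ) =
        Real.exp (TS e d ν ω).re := by
      intro ω
      rw [Real.exp_eq_exp_ℝ, NormedSpace.exp_eq_tsum_div]
    simp_rw [e1] at h2
    have e2 : ∀ m : ℕ, ∫ ω, (TS e d ν ω).re ^ m / (m.factorial : ℝ) ∂μ =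
        (∫ ω, (TS e d ν ω).re ^ m ∂μ) / (m.factorial : ℝ) := by
      intro m
      rw [← integral_div]
    simp_rw [e2] at h2
    exact h2
  have h1 := hexp c hc
  have h2 := hexp _ (norm_ofReal_le hc)
  refine hasSum_le (fun m => ?_) h1 h2
  apply div_le_div_of_nonneg_right _ (by positivity)
  have h3 := ((Maj.re F hC hc hν).pow F m).bound (μ := μ) F
  have e3 : ∀ d : J → ℂ, ∫ ω, (((TS e d ν ω).re : ℝ) : ℂ) ^ m ∂μ =
      ((∫ ω, (TS e d ν ω).re ^ m ∂μ : ℝ) : ℂ) := by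
    intro d
    rw [← integral_complex_ofReal]
    apply integral_congr_ae
    filter_upwards with ω
    push_cast
    ring
  rw [e3, e3, Complex.norm_real, Complex.ofReal_re] at h3
  exact (le_abs_self _).trans h3

end

end Pool.Agent.H81.ED
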