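import Mathlib
import Pool.Agent.H81.ED.Maj
import Pool.Agent.H91.Edge.MajEuler

/-!
# ED, Eul: twisted Euler products as exponentials of series of monomials
-/

set_option autoImplicit false

open Complex MeasureTheory Filter Topology

namespace Pool.Agent.H81.ED

open Pool.Agent.H89.EdgeBasic
open Pool.Agent.H91.Edge (zc zc_nonneg summable_zc norm_ps_le locLog_hasSum prime_rpow_le_half ps)

variable {Ω : Type} [MeasurableSpace Ω] {μ : Measure Ω} {e : Ω → ℕ → ℂ}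
variable {N i b : ℕ} {P : ℕ → Polynomial ℂ}

/-- The indices. -/
def nu (x : Nat.Primes × ℕ) : ℕ × ℕ := ((x.1 : ℕ) ^ x.2, 1)

lemma nu_pos (x : Nat.Primes × ℕ) : 0 < (nu x).1 ∧ 0 < (nu x).2 :=
  ⟨Nat.pow_pos x.1.2.pos, one_pos⟩

lemma e_pow (F : Fam μ e) (ω : Ω) (n k : ℕ) : e ω (n ^ k) = e ω n ^ k := by
  induction k with
  | zero => simp [F.one]
  | succ k ih => rw [pow_succ, F.mul, ih, pow_succ]

lemma EE_nu (F : Fam μ e) (ω : Ω) (x : Nat.Primes × ℕ) :
    EE e (nu x) ω = e ω x.1 ^ x.2 := by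
  unfold EE nu
  simp [e_pow F, F.one]

/-- The coefficients of the logarithm. -/
noncomputable def lc (N : ℕ) (P : ℕ → Polynomial ℂ) (s : ℂ) (x : Nat.Primes × ℕ) : ℂ :=
  if ((x.1 : ℕ) ∣ N) then 0 else ps (P x.1) x.2 * (((x.1 : ℕ) : ℂ) ^ (-s)) ^ x.2 / x.2

lemma norm_lc_le (H : Hyp N i b P) {s : ℂ} {h : ℝ} (hs : s.re = 1 + (i:ℝ)/2 + h)
    (x : Nat.Primes × ℕ) : ‖lc N P s x‖ ≤ b * zc h x := by
  unfold lc
  split_ifs with hN
  · rw [norm_zero]
    exact mul_nonneg (Nat.cast_nonneg _) (zc_nonneg h x)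
  · have h1 := norm_ps_le H ⟨x.1, x.1.2, hN⟩ x.2
    simp only at h1
    have hp0 : (0:ℝ) < ((x.1:ℕ):ℝ) := by exact_mod_cast x.1.2.pos
    have h2 : ‖((x.1 : ℕ) : ℂ) ^ (-s)‖ = ((x.1:ℕ):ℝ) ^ (-(1 + (i:ℝ)/2 + h)) := by
      rw [Complex.norm_natCast_cpow_of_pos x.1.2.pos, Complex.neg_re, hs]
    rw [norm_div, norm_mul, norm_pow, h2, Complex.norm_natCast]
    unfold zc
    rw [mul_div_assoc']
    apply div_le_div_of_nonneg_right _ (Nat.cast_nonneg _)
    calc ‖ps (P x.1) x.2‖ * (((x.1:ℕ):ℝ) ^ (-(1 + (i:ℝ)/2 + h))) ^ x.2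
        ≤ (b * (((x.1:ℕ):ℝ) ^ ((i:ℝ)/2)) ^ x.2) * (((x.1:ℕ):ℝ) ^ (-(1 + (i:ℝ)/2 + h))) ^ x.2 := by
          gcongr
      _ = b * ((((x.1:ℕ):ℝ) ^ ((i:ℝ)/2)) * (((x.1:ℕ):ℝ) ^ (-(1 + (i:ℝ)/2 + h)))) ^ x.2 := by
          rw [mul_assoc, ← mul_pow]
      _ = b * (((x.1:ℕ):ℝ) ^ (-(1 + h))) ^ x.2 := by
          rw [← Real.rpow_add hp0]
          congr 3
          ring

/-- The twisted Euler product is the exponential of a series of monomials. -/
lemma hasProd_tw (F : Fam μ e) (H : Hyp N i b P) {s : ℂ} {h : ℝ} (hh : 0 < h)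
    (hs : s.re = 1 + (i:ℝ)/2 + h) (ω : Ω) :
    HasProd (fun p : Idx N => ((P p).eval (e ω p * (p:ℂ) ^ (-s)))⁻¹)
      (cexp (TS e (lc N P s) nu ω)) := by
  have hs' : 1 + (i:ℝ)/2 < s.re := by rw [hs]; linarith
  have hC : Summable fun x => (b:ℝ) * zc h x := (summable_zc hh).mul_left _
  have hsm := summable_TS F hC (norm_lc_le H hs) nu ω
  have hfib := hsm.hasSum.prod_fiberwise (g := fun p : Nat.Primes =>
      if (p:ℕ) ∣ N then 0 else locLog (P p) (e ω p * (p:ℂ) ^ (-s))) (by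
    intro p
    by_cases hN : (p:ℕ) ∣ N
    · rw [if_pos hN]
      have : ∀ k : ℕ, lc N P s (p, k) * EE e (nu (p, k)) ω = 0 := by
        intro k
        unfold lc
        simp only
        rw [if_pos hN, zero_mul]
      simp_rw [this]
      exact hasSum_zero
    · rw [if_neg hN]
      have hr : ∀ r ∈ (P p).roots, ‖e ω p * (p:ℂ) ^ (-s) / r‖ < 1 := by
        intro r hr
        have h1 := root_bound H ⟨p, p.2, hN⟩ hs' hr
        have h2 := inv_le_half (N := N) ⟨p, p.2, hN⟩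
        simp only at h1 h2
        rw [mul_div_assoc, norm_mul]
        have h3 := F.le ω p
        have h4 := norm_nonneg ((p:ℂ) ^ (-s) / r)
        have h5 := norm_nonneg (e ω p)
        nlinarith
      have h1 := locLog_hasSum (P p) (e ω p * (p:ℂ) ^ (-s)) hr
      refine h1.congr_fun ?_
      intro k
      rw [EE_nu F]
      unfold lc
      simp only
      rw [if_neg hN, mul_pow]
      ring)
  have hexp := hfib.cexp
  have hTS : (∑' x, lc N P s x * EE e (nu x) ω) = TS e (lc N P s) nu ω := rfl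
  rw [hTS] at hexp
  set ι : Idx N → Nat.Primes := fun p => ⟨p, p.2.1⟩ with hι
  have hinj : Function.Injective ι := by
    intro p q hpq
    have := congrArg (fun r : Nat.Primes => (r : ℕ)) hpq
    exact Subtype.ext this
  have h3 := (hinj.hasProd_iff (a := cexp (TS e (lc N P s) nu ω))
    (f := fun p : Nat.Primes => cexp (if (p:ℕ) ∣ N then 0 else
      locLog (P p) (e ω p * (p:ℂ) ^ (-s)))) (by
    intro q hq
    have hN : (q:ℕ) ∣ N := by
      by_contra hN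
      exact hq ⟨⟨q, q.2, hN⟩, rfl⟩
    rw [if_pos hN, Complex.exp_zero])).mpr hexp
  refine h3.congr_fun ?_
  intro p
  simp only [Function.comp, hι]
  rw [if_neg p.2.2, exp_locLog _ (H.h0 p p.2.1 p.2.2)]
  intro r hr
  have h1 := root_bound H p hs' hr
  have h2 := inv_le_half p
  rw [mul_div_assoc, norm_mul]
  have h3 := F.le ω p
  have h4 := norm_nonneg ((p:ℂ) ^ (-s) / r)
  have h5 := norm_nonneg (e ω p)
  nlinarith

/-- The majorant. -/
lemma hasProd_ze (F : Fam μ e) {h : ℝ} (hh : 0 < h) (ω : Ω) :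
    HasProd (fun p : Nat.Primes => (1 - e ω p * (p:ℂ) ^ (-(1 + (h:ℂ))))⁻¹)
      (cexp (TS e (fun x => (zc h x : ℂ)) nu ω)) := by
  have hz0 : ∀ x, ‖((zc h x : ℝ) : ℂ)‖ ≤ zc h x := fun x => by
    rw [Complex.norm_real, Real.norm_of_nonneg (zc_nonneg h x)]
  have hsm := summable_TS F (summable_zc hh) hz0 nu ω
  have hz : ∀ p : Nat.Primes, ‖e ω p * (p:ℂ) ^ (-(1 + (h:ℂ)))‖ < 1 := by
    intro p
    have h1 := Complex.norm_natCast_cpow_of_pos p.2.pos (-(1 + (h:ℂ)))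
    rw [norm_mul, h1]
    have h2 := prime_rpow_le_half hh p
    have h3 : (-(1 + (h:ℂ))).re = -(1 + h) := by simp
    rw [h3]
    have h4 := F.le ω p
    have h5 := norm_nonneg (e ω p)
    have h6 : 0 ≤ ((p:ℕ):ℝ) ^ (-(1 + h)) := by positivity
    nlinarith
  have hfib := hsm.hasSum.prod_fiberwise (g := fun p : Nat.Primes =>
      -Complex.log (1 - e ω p * (p:ℂ) ^ (-(1 + (h:ℂ))))) (by
    intro p
    have h1 := hasSum_taylorSeries_neg_log (hz p)
    refine h1.congr_fun ?_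
    intro k
    have hp0 : (0:ℝ) < ((p:ℕ):ℝ) := by exact_mod_cast p.2.pos
    rw [EE_nu F]
    unfold zc
    simp only
    push_cast
    rw [Complex.ofReal_cpow hp0.le]
    push_cast
    rw [mul_pow]
    ring)
  have hexp := hfib.cexp
  refine hexp.congr_fun ?_
  intro p
  simp only [Function.comp]
  rw [Complex.exp_neg, Complex.exp_log]
  intro h0
  have h1 := hz p
  rw [sub_eq_zero] at h0
  rw [← h0, norm_one] at h1
  exact lt_irrefl _ h1

/-- The exponentials are bounded and measurable. -/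
lemma integrable_exp (F : Fam μ e) {J : Type} [Countable J] {c : J → ℂ} {C : J → ℝ}
    (hC : Summable C) (hc : ∀ j, ‖c j‖ ≤ C j) (ν : J → ℕ × ℕ) :
    Integrable (fun ω => Real.exp (TS e c ν ω).re) μ := by
  have := F.fin
  have hmeas : Measurable fun ω => (TS e c ν ω).re :=
    Complex.measurable_re.comp (meas_TS F hC hc ν)
  refine Integrable.of_bound (Real.measurable_exp.comp hmeas).aestronglyMeasurable
    (Real.exp (∑' j, C j)) ?_
  filter_upwards with ω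
  rw [Real.norm_of_nonneg (Real.exp_pos _).le, Real.exp_le_exp]
  exact (le_abs_self _).trans ((Complex.abs_re_le_norm _).trans (norm_TS_le F hC hc ν ω))

lemma norm_exp_rpow {J : Type} (c : J → ℂ) (ν : J → ℕ × ℕ) (l : ℝ) (ω : Ω) :
    ‖cexp (TS e c ν ω)‖ ^ l = Real.exp (TS e (fun j => (l:ℂ) * c j) ν ω).re := by
  rw [Complex.norm_exp, ← Real.exp_mul]
  congr 1
  have : TS e (fun j => (l:ℂ) * c j) ν ω = (l:ℂ) * TS e c ν ω := by
    unfold TS
    rw [← tsum_mul_left]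
    apply tsum_congr
    intro j
    ring
  rw [this, Complex.re_ofReal_mul, mul_comm]

/-- The domination principle. -/
theorem dom (F : Fam μ e) (H : Hyp N i b P) {s : ℂ} {h : ℝ} (hh : 0 < h)
    (hs : s.re = 1 + (i:ℝ)/2 + h) (l : ℝ) :
    Integrable (fun ω => ‖∏' p : Idx N, ((P p).eval (e ω p * (p:ℂ) ^ (-s)))⁻¹‖ ^ l) μ ∧
    Integrable (fun ω =>
      ‖∏' p : Nat.Primes, (1 - e ω p * (p:ℂ) ^ (-(1 + (h:ℂ))))⁻¹‖ ^ (b * |l|)) μ ∧
    ∫ ω, ‖∏' p : Idx N, ((P p).eval (e ω p * (p:ℂ) ^ (-s)))⁻¹‖ ^ l ∂μ ≤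
      ∫ ω, ‖∏' p : Nat.Primes, (1 - e ω p * (p:ℂ) ^ (-(1 + (h:ℂ))))⁻¹‖ ^ (b * |l|) ∂μ := by
  simp_rw [fun ω => (hasProd_tw F H hh hs ω).tprod_eq, fun ω => (hasProd_ze F hh ω).tprod_eq,
    norm_exp_rpow]
  have hC : Summable fun x => (b * |l|) * zc h x := (summable_zc hh).mul_left _
  have h1 : ∀ x, ‖(l:ℂ) * lc N P s x‖ ≤ (b * |l|) * zc h x := by
    intro x
    rw [norm_mul, Complex.norm_real, Real.norm_eq_abs]
    have h2 := norm_lc_le H hs x
    calc |l| * ‖lc N P s x‖ ≤ |l| * (b * zc h x) := by gcongr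
      _ = (b * |l|) * zc h x := by ring
  have e1 : (fun x => (((b * |l| : ℝ)) : ℂ) * ((zc h x : ℝ) : ℂ)) =
      fun x => (((b * |l|) * zc h x : ℝ) : ℂ) := by
    funext x
    push_cast
    ring
  rw [e1]
  refine ⟨integrable_exp F hC h1 nu, integrable_exp F hC (norm_ofReal_le h1) nu, ?_⟩
  exact exp_maj F hC h1 nu_pos

end Pool.Agent.H81.ED
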