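import Mathlib
import Pool.Agent.H81.ED.Bound
import Pool.Agent.H81.ED.Eul

/-!
# ED, Fin: the modulus aspect
-/

set_option autoImplicit false

open MeasureTheory

namespace Pool.Agent.H81.ED

open Pool.Agent.H89.EdgeBasic

/-- The characters modulo `q` with counting measure. -/
lemma fam_char (q : ℕ) [NeZero q] :
    @Fam (DirichletCharacter ℂ q) ⊤ (@Measure.count _ ⊤) (fun ψ n => ψ n) := by
  letI : MeasurableSpace (DirichletCharacter ℂ q) := ⊤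
  refine ⟨inferInstance, ?_, ?_, ?_, ?_, ?_⟩
  · intro ψ
    simp
  · intro ψ m n
    simp
  · intro ψ n
    exact ψ.norm_le_one _
  · intro n
    exact measurable_from_top
  · intro m n _ _
    rw [integral_count, orth]
    split_ifs
    · exact ⟨q.totient, Nat.cast_nonneg _, by simp⟩
    · exact ⟨0, le_rfl, by simp⟩

lemma dom_char {N i b : ℕ} {P : ℕ → Polynomial ℂ} (H : Hyp N i b P) {s : ℂ} {h : ℝ} (hh : 0 < h)
    (hs : s.re = 1 + (i:ℝ)/2 + h) (l : ℝ) (q : ℕ) [NeZero q] :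
    ∑ ψ : DirichletCharacter ℂ q,
      ‖∏' p : Idx N, ((P p).eval (ψ (p : ℕ) * ((p : ℕ):ℂ) ^ (-s)))⁻¹‖ ^ l ≤
    ∑ ψ : DirichletCharacter ℂ q, ‖LL ψ h‖ ^ (b * |l|) := by
  letI : MeasurableSpace (DirichletCharacter ℂ q) := ⊤
  have h1 := (dom (fam_char q) H hh hs l).2.2
  rw [integral_count, integral_count] at h1
  exact h1

lemma norm_LL_le {q : ℕ} (ψ : DirichletCharacter ℂ q) {h : ℝ} (hh : 1 ≤ h) :
    ‖LL ψ h‖ ≤ ∑' n : ℕ+, (((n : ℕ) : ℝ) ^ (-(2:ℝ))) := by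
  obtain ⟨h1, h2⟩ := LL_eq ψ (lt_of_lt_of_le one_pos hh)
  have h3 : Summable fun n : ℕ+ => (((n : ℕ) : ℝ) ^ (-(2:ℝ))) :=
    (Real.summable_nat_rpow.mpr (by norm_num)).comp_injective PNat.coe_injective
  rw [h2]
  apply tsum_of_norm_bounded h3.hasSum
  intro n
  rw [norm_mul, Complex.norm_real, Real.norm_of_nonneg (by positivity)]
  have h4 : (((n : ℕ) : ℝ) ^ (-(1 + h))) ≤ (((n : ℕ) : ℝ) ^ (-(2:ℝ))) := by
    apply Real.rpow_le_rpow_of_exponent_le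
    · exact_mod_cast n.pos
    · linarith
  exact (mul_le_of_le_one_left (by positivity) (ψ.norm_le_one _)).trans h4

/-- All moments of order at most `2 m`. -/
theorem moment_char (m : ℕ) (hm : 0 < m) : ∃ C : ℝ, 0 ≤ C ∧ ∀ (q : ℕ) [NeZero q] (h β : ℝ),
    (q : ℝ) ^ (-(1 / (2 * (m:ℝ) ^ 2))) ≤ h → 0 ≤ β → β ≤ 2 * m →
    ∑ ψ : DirichletCharacter ℂ q, ‖LL ψ h‖ ^ β ≤ C * q.totient := by
  obtain ⟨n, rfl⟩ : ∃ n, m = n + 1 := ⟨m - 1, by omega⟩
  obtain ⟨C, hC, hC2⟩ := even_moment n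
  set A : ℝ := ∑' n : ℕ+, (((n : ℕ) : ℝ) ^ (-(2:ℝ))) with hA
  have hA0 : 0 ≤ A := tsum_nonneg fun n => by positivity
  refine ⟨1 + C + A ^ (2 * (n + 1)), by positivity, ?_⟩
  intro q hq h β hlow hβ hβ2
  have hcard : (∑ _ψ : DirichletCharacter ℂ q, (1:ℝ)) = q.totient := by
    rw [Finset.sum_const, nsmul_eq_mul, mul_one, Finset.card_univ]
    have h1 := DirichletCharacter.card_eq_totient_of_hasEnoughRootsOfUnity ℂ q
    rw [Nat.card_eq_fintype_card] at h1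
    exact_mod_cast h1
  have hpt : ∀ ψ : DirichletCharacter ℂ q, ‖LL ψ h‖ ^ β ≤ 1 + ‖LL ψ h‖ ^ (2 * (n + 1)) := by
    intro ψ
    rcases le_total ‖LL ψ h‖ 1 with h1 | h1
    · have h2 : ‖LL ψ h‖ ^ β ≤ 1 := Real.rpow_le_one (norm_nonneg _) h1 hβ
      have h3 : 0 ≤ ‖LL ψ h‖ ^ (2 * (n + 1)) := by positivity
      linarith
    · have h2 : ‖LL ψ h‖ ^ β ≤ ‖LL ψ h‖ ^ ((2 * (n + 1) : ℕ) : ℝ) := by
        apply Real.rpow_le_rpow_of_exponent_le h1
        push_cast at hβ2 ⊢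
        exact hβ2
      rw [Real.rpow_natCast] at h2
      linarith
  have h1 : ∑ ψ : DirichletCharacter ℂ q, ‖LL ψ h‖ ^ β ≤
      q.totient + ∑ ψ : DirichletCharacter ℂ q, ‖LL ψ h‖ ^ (2 * (n + 1)) := by
    rw [← hcard, ← Finset.sum_add_distrib]
    exact Finset.sum_le_sum fun ψ _ => hpt ψ
  have hq0 : (0:ℝ) ≤ q.totient := Nat.cast_nonneg _
  rcases le_total h 1 with hle | hge
  · have h2 := hC2 q h (by push_cast at hlow; exact hlow) hle
    have h3 : 0 ≤ A ^ (2 * (n + 1)) * q.totient := by positivity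
    nlinarith
  · have h2 : ∑ ψ : DirichletCharacter ℂ q, ‖LL ψ h‖ ^ (2 * (n + 1)) ≤
        A ^ (2 * (n + 1)) * q.totient := by
      rw [← hcard, Finset.mul_sum]
      apply Finset.sum_le_sum
      intro ψ _
      rw [mul_one]
      exact pow_le_pow_left₀ (norm_nonneg _) (norm_LL_le ψ hge) _
    have h3 : 0 ≤ C * q.totient := by positivity
    nlinarith

/-- The modulus aspect: moments of order at most `2 m / b` over all characters modulo `q`. -/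
theorem q_moment (m : ℕ) (hm : 0 < m) : ∃ C : ℝ, 0 ≤ C ∧
    ∀ (N i b : ℕ) (P : ℕ → Polynomial ℂ), Hyp N i b P → ∀ (q : ℕ) [NeZero q] (s : ℂ) (h l : ℝ),
      s.re = 1 + (i:ℝ)/2 + h → (q : ℝ) ^ (-(1 / (2 * (m:ℝ) ^ 2))) ≤ h → b * |l| ≤ 2 * m →
      ∑ ψ : DirichletCharacter ℂ q,
        ‖∏' p : Idx N, ((P p).eval (ψ (p : ℕ) * ((p : ℕ):ℂ) ^ (-s)))⁻¹‖ ^ l ≤ C * q.totient := by
  obtain ⟨C, hC, hC2⟩ := moment_char m hm
  refine ⟨C, hC, ?_⟩
  intro N i b P H q hq s h l hs hlow hl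
  have hq0 : (0:ℝ) < q := by exact_mod_cast Nat.pos_of_ne_zero hq.out
  have hh : 0 < h := (Real.rpow_pos_of_pos hq0 _).trans_le hlow
  exact (dom_char H hh hs l q).trans (hC2 q h _ hlow (by positivity) hl)

end Pool.Agent.H81.ED
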