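import Mathlib
import Pool.Agent.H81.ED.Fin

/-!
# ED, Tail: second moments of tails
-/

set_option autoImplicit false

open MeasureTheory Filter Topology
open scoped ENNReal

namespace Pool.Agent.H81.ED

open Classical in
/-- Second moments over the characters. -/
lemma second_moment {q : ℕ} [NeZero q] {J : Type} (j : J → ℕ) {c : J → ℂ} {C : J → ℝ}
    (hC : Summable C) (hc : ∀ x, ‖c x‖ ≤ C x) :
    ENNReal.ofReal (∑ ψ : DirichletCharacter ℂ q, ‖∑' x, c x * ψ (j x)‖ ^ 2) ≤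
      (q.totient : ℝ≥0∞) * ∑' x : J × J, (if Cg q (j x.1) (j x.2) then
        ENNReal.ofReal (C x.1) * ENNReal.ofReal (C x.2) else 0) := by
  have hC0 : ∀ x, 0 ≤ C x := fun x => (norm_nonneg _).trans (hc x)
  have h0 : ∀ (ψ : DirichletCharacter ℂ q), Summable fun x => ‖c x * ψ (j x)‖ := by
    intro ψ
    refine Summable.of_nonneg_of_le (fun _ => norm_nonneg _) (fun x => ?_) hC
    rw [norm_mul]
    exact (mul_le_of_le_one_right (norm_nonneg _) (ψ.norm_le_one _)).trans (hc x)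
  have h1 : ∀ ψ : DirichletCharacter ℂ q,
      HasSum (fun x : J × J => (ψ (j x.1) * (starRingEnd ℂ) (ψ (j x.2))) *
        (c x.1 * (starRingEnd ℂ) (c x.2))) ((‖∑' x, c x * ψ (j x)‖ ^ 2 : ℝ) : ℂ) := by
    intro ψ
    have h4 := (h0 ψ).of_norm.hasSum
    have h6 : HasSum (fun x => (starRingEnd ℂ) (c x * ψ (j x)))
        ((starRingEnd ℂ) (∑' x, c x * ψ (j x))) := h4.mapL (Complex.conjCLE : ℂ →L[ℝ] ℂ)
    have h7 : Summable (fun x => ‖(starRingEnd ℂ) (c x * ψ (j x))‖) := by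
      simp_rw [RCLike.norm_conj]
      exact h0 ψ
    have h8 := (summable_mul_of_summable_norm (h0 ψ) h7).hasSum
    rw [← tsum_mul_tsum_of_summable_norm (h0 ψ) h7, h6.tsum_eq] at h8
    have h9 : (∑' x, c x * ψ (j x)) * (starRingEnd ℂ) (∑' x, c x * ψ (j x)) =
        ((‖∑' x, c x * ψ (j x)‖ ^ 2 : ℝ) : ℂ) := by
      rw [Complex.mul_conj']
      push_cast
      rfl
    rw [h9] at h8
    refine h8.congr_fun ?_
    intro x
    rw [map_mul]
    ring
  have h2 := hasSum_sum (s := Finset.univ) (fun ψ (_ : ψ ∈ Finset.univ) => h1 ψ)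
  simp_rw [← Finset.sum_mul, orth] at h2
  set G : J × J → ℝ := fun x => if Cg q (j x.1) (j x.2) then (q.totient : ℝ) * (C x.1 * C x.2)
    else 0 with hG
  have hG0 : ∀ x, 0 ≤ G x := by
    intro x
    rw [hG]
    simp only
    split_ifs
    · exact mul_nonneg (Nat.cast_nonneg _) (mul_nonneg (hC0 _) (hC0 _))
    · exact le_rfl
  have hGs : Summable G := by
    have h3 : Summable fun x : J × J => (q.totient : ℝ) * (C x.1 * C x.2) :=
      (hC.mul_of_nonneg hC hC0 hC0).mul_left _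
    refine Summable.of_nonneg_of_le hG0 (fun x => ?_) h3
    rw [hG]
    simp only
    split_ifs
    · exact le_rfl
    · exact mul_nonneg (Nat.cast_nonneg _) (mul_nonneg (hC0 _) (hC0 _))
  have h3 : ‖((∑ ψ : DirichletCharacter ℂ q, ‖∑' x, c x * ψ (j x)‖ ^ 2 : ℝ) : ℂ)‖ ≤
      ∑' x, G x := by
    rw [Complex.ofReal_sum, ← h2.tsum_eq]
    apply tsum_of_norm_bounded hGs.hasSum
    intro x
    rw [hG]
    simp only
    split_ifs
    · rw [norm_mul, Complex.norm_natCast, norm_mul, RCLike.norm_conj]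
      gcongr
      · exact hC0 _
      · exact hc _
      · exact hc _
    · simp
  rw [Complex.norm_real, Real.norm_of_nonneg (Finset.sum_nonneg fun ψ _ => by positivity)] at h3
  refine (ENNReal.ofReal_le_ofReal h3).trans (le_of_eq ?_)
  rw [ENNReal.ofReal_tsum_of_nonneg hG0 hGs, ← ENNReal.tsum_mul_left]
  apply tsum_congr
  intro x
  rw [hG]
  simp only
  split_ifs
  · rw [ENNReal.ofReal_mul (Nat.cast_nonneg _), ENNReal.ofReal_mul (hC0 _),
      ENNReal.ofReal_natCast]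
  · simp

/-- The tail of the series of inverse squares. -/
noncomputable def tau2 (y : ℕ) : ℝ≥0∞ :=
  ∑' n : ℕ+, if y < (n : ℕ) then ENNReal.ofReal ((((n : ℕ) : ℝ)⁻¹) ^ 2) else 0

lemma tendsto_tau2 : Tendsto tau2 atTop (𝓝 0) := by
  have hne : ∑' n : ℕ+, ENNReal.ofReal ((((n : ℕ) : ℝ)⁻¹) ^ 2) ≠ ⊤ := by
    have h1 : Summable fun n : ℕ+ => ((((n : ℕ) : ℝ)⁻¹) ^ 2) := by
      have h2 : Summable fun n : ℕ => (((n : ℝ)⁻¹) ^ 2) := by
        simp_rw [inv_pow]
        exact Real.summable_nat_pow_inv.mpr (by norm_num)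
      exact h2.comp_injective PNat.coe_injective
    rw [← ENNReal.ofReal_tsum_of_nonneg (fun n => by positivity) h1]
    exact ENNReal.ofReal_ne_top
  have h2 := ENNReal.tendsto_tsum_compl_atTop_zero hne
  set S : ℕ → Finset ℕ+ := fun y => (Finset.Icc 1 (Nat.succPNat y)).filter fun n => (n : ℕ) ≤ y
    with hS
  have hmem : ∀ y (n : ℕ+), n ∈ S y ↔ (n : ℕ) ≤ y := by
    intro y n
    rw [hS, Finset.mem_filter, Finset.mem_Icc]
    constructor
    · exact fun h => h.2
    · intro h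
      refine ⟨⟨one_le, ?_⟩, h⟩
      rw [← PNat.coe_le_coe, Nat.succPNat_coe]
      omega
  have h3 : Tendsto S atTop atTop := by
    apply Filter.tendsto_atTop_finset_of_monotone
    · intro a c hac n hn
      rw [hmem] at hn ⊢
      omega
    · intro n
      exact ⟨n, (hmem _ _).mpr le_rfl⟩
  refine (h2.comp h3).congr ?_
  intro y
  simp only [Function.comp]
  unfold tau2
  have h4 : ∑' b : {x : ℕ+ // x ∉ S y}, ENNReal.ofReal ((((b : ℕ+) : ℕ) : ℝ)⁻¹ ^ 2) =
      ∑' b : ({x : ℕ+ | x ∉ S y} : Set ℕ+), ENNReal.ofReal ((((b : ℕ+) : ℕ) : ℝ)⁻¹ ^ 2) := rfl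
  rw [h4, tsum_subtype {x : ℕ+ | x ∉ S y} (fun b : ℕ+ => ENNReal.ofReal ((((b : ℕ) : ℝ)⁻¹) ^ 2))]
  apply tsum_congr
  intro n
  rw [Set.indicator_apply]
  simp only [Set.mem_ofPred_eq, hmem, not_le]

open Classical in
lemma tail_count {q : ℕ} (hq : 0 < q) {h : ℝ} (hh : 0 < h) (y : ℕ) :
    ∑' x : ℕ+ × ℕ+, (if Cg q x.1 x.2 then (if y < (x.1 : ℕ) then wt h x.1 else 0) *
        (if y < (x.2 : ℕ) then wt h x.2 else 0) else 0) ≤
      tau2 y + 2 * (BB q 1 h * ZZ h) := by
  set A : ℕ+ × ℕ+ → ℝ≥0∞ := fun x =>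
    if x.2 = x.1 then (if y < (x.1 : ℕ) then wt h x.1 * wt h x.1 else 0) else 0 with hA
  set B : ℕ+ × ℕ+ → ℝ≥0∞ := fun x =>
    if ((x.2 : ℕ) : ZMod q) = ((x.1 : ℕ) : ZMod q) ∧ q < (x.2 : ℕ) ^ 1 then wt h x.1 * wt h x.2
      else 0 with hB
  have hpt : ∀ x : ℕ+ × ℕ+, (if Cg q x.1 x.2 then (if y < (x.1 : ℕ) then wt h x.1 else 0) *
        (if y < (x.2 : ℕ) then wt h x.2 else 0) else 0) ≤ A x + (B x + B x.swap) := by
    rintro ⟨m, n⟩
    by_cases hc : Cg q (m : ℕ) (n : ℕ)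
    · rw [if_pos hc]
      have hle : (if y < (m : ℕ) then wt h m else 0) * (if y < (n : ℕ) then wt h n else 0) ≤
          wt h m * wt h n := by
        gcongr <;> split_ifs <;> simp
      have hmod : (m : ℕ) ≡ (n : ℕ) [MOD q] := (ZMod.natCast_eq_natCast_iff _ _ _).mp hc.1
      rcases lt_trichotomy (m : ℕ) (n : ℕ) with h1 | h1 | h1
      · have h2 : q < (n : ℕ) ^ 1 := by
          have h3 := (Nat.modEq_iff_dvd' h1.le).mp hmod
          have h4 := Nat.le_of_dvd (by omega) h3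
          have h5 := m.pos
          rw [pow_one]
          omega
        have h3 : B (m, n) = wt h m * wt h n := by
          rw [hB]
          simp only
          rw [if_pos ⟨hc.1.symm, h2⟩]
        rw [← h3] at hle
        exact hle.trans (le_add_left (le_add_right le_rfl))
      · have hmn : n = m := PNat.eq h1.symm
        subst hmn
        rw [hA]
        simp only [if_true]
        refine le_trans (le_of_eq ?_) (le_add_right le_rfl)
        split_ifs <;> simp
      · have h2 : q < (m : ℕ) ^ 1 := by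
          have h3 := (Nat.modEq_iff_dvd' h1.le).mp hmod.symm
          have h4 := Nat.le_of_dvd (by omega) h3
          have h5 := n.pos
          rw [pow_one]
          omega
        have h3 : B (Prod.swap (m, n)) = wt h m * wt h n := by
          rw [hB]
          simp only [Prod.fst_swap, Prod.snd_swap]
          rw [if_pos ⟨hc.1, h2⟩, mul_comm]
        rw [← h3] at hle
        exact hle.trans (le_add_left (le_add_left le_rfl))
    · rw [if_neg hc]
      exact zero_le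
  have hAs : ∑' x, A x ≤ tau2 y := by
    rw [ENNReal.tsum_prod']
    unfold tau2
    apply ENNReal.tsum_le_tsum
    intro n
    rw [hA]
    simp only
    rw [tsum_ite_eq]
    split_ifs
    · calc wt h n * wt h n ≤ ENNReal.ofReal (((n : ℕ) : ℝ)⁻¹) * ENNReal.ofReal (((n : ℕ) : ℝ)⁻¹) := by
            gcongr <;> exact wt_le hh.le n
        _ = ENNReal.ofReal ((((n : ℕ) : ℝ)⁻¹) ^ 2) := by
            rw [← ENNReal.ofReal_mul (by positivity), sq]
    · exact le_rfl
  have hBs : ∑' x, B x ≤ BB q 1 h * ZZ h := by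
    rw [ENNReal.tsum_prod']
    have h1 : ∀ m : ℕ+, ∑' n : ℕ+, B (m, n) ≤ wt h m * BB q 1 h := by
      intro m
      have h2 := inner_le (m := 1) hq one_pos hh ((m : ℕ) : ZMod q)
      calc ∑' n : ℕ+, B (m, n) = ∑' n : ℕ+, wt h m *
            (if ((n : ℕ) : ZMod q) = ((m : ℕ) : ZMod q) ∧ q < (n : ℕ) ^ 1 then wt h n else 0) := by
              apply tsum_congr
              intro n
              rw [hB]
              simp only
              split_ifs <;> simp
        _ ≤ wt h m * BB q 1 h := by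
              rw [ENNReal.tsum_mul_left]
              gcongr
    calc ∑' m : ℕ+, ∑' n : ℕ+, B (m, n) ≤ ∑' m : ℕ+, wt h m * BB q 1 h :=
          ENNReal.tsum_le_tsum h1
      _ = BB q 1 h * ZZ h := by
          rw [ENNReal.tsum_mul_right, mul_comm]
          rfl
  have hBs' : ∑' x : ℕ+ × ℕ+, B x.swap ≤ BB q 1 h * ZZ h := by
    refine le_trans (le_of_eq ?_) hBs
    exact (Equiv.prodComm _ _).tsum_eq B
  calc _ ≤ ∑' x, (A x + (B x + B x.swap)) := ENNReal.tsum_le_tsum hpt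
    _ = ∑' x, A x + (∑' x, B x + ∑' x, B (Prod.swap x)) := by
        rw [ENNReal.tsum_add, ENNReal.tsum_add]
    _ ≤ tau2 y + (BB q 1 h * ZZ h + BB q 1 h * ZZ h) := by gcongr
    _ = tau2 y + 2 * (BB q 1 h * ZZ h) := by ring

lemma BB_one_le {q : ℕ} (hq : 0 < q) {h : ℝ} (hh : 0 < h) (h1 : h ≤ 1) :
    BB q 1 h * ZZ h ≤ ENNReal.ofReal (6 * ((q:ℝ) * h ^ 2)⁻¹) := by
  have hq0 : (0:ℝ) < q := by exact_mod_cast hq
  have hZ := ZZ_le hh h1
  have h2 : BB q 1 h ≤ ENNReal.ofReal ((q:ℝ)⁻¹ * (3 / h)) := by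
    unfold BB
    have e1 : (q : ℝ) ^ (-(1 / ((1 : ℕ) : ℝ))) = (q:ℝ)⁻¹ := by
      rw [Nat.cast_one, div_one, Real.rpow_neg_one]
    rw [e1]
    calc ENNReal.ofReal ((q : ℝ)⁻¹) + ENNReal.ofReal ((q : ℝ)⁻¹) * ZZ h
        ≤ ENNReal.ofReal ((q : ℝ)⁻¹) + ENNReal.ofReal ((q : ℝ)⁻¹) * ENNReal.ofReal (2 / h) := by
          gcongr
      _ = ENNReal.ofReal ((q : ℝ)⁻¹ * (1 + 2 / h)) := by
          rw [← ENNReal.ofReal_mul (by positivity), ← ENNReal.ofReal_add (by positivity)
            (by positivity)]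
          congr 1
          ring
      _ ≤ ENNReal.ofReal ((q:ℝ)⁻¹ * (3 / h)) := by
          apply ENNReal.ofReal_le_ofReal
          apply mul_le_mul_of_nonneg_left _ (by positivity)
          rw [le_div_iff₀ hh]
          have : (1 + 2 / h) * h = h + 2 := by field_simp
          linarith
  calc BB q 1 h * ZZ h ≤ ENNReal.ofReal ((q:ℝ)⁻¹ * (3 / h)) * ENNReal.ofReal (2 / h) := by
        gcongr
    _ = ENNReal.ofReal (6 * ((q:ℝ) * h ^ 2)⁻¹) := by
        rw [← ENNReal.ofReal_mul (by positivity)]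
        congr 1
        field_simp
        norm_num

end Pool.Agent.H81.ED
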