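import Mathlib
import Pool.Agent.H81.ED.Tail
import Pool.Agent.H91.Edge.Dist2

/-!
# ED, TailL: tails of twisted Euler products
-/

set_option autoImplicit false

open MeasureTheory Filter Topology
open scoped ENNReal

namespace Pool.Agent.H81.ED

open Pool.Agent.H89.EdgeBasic
open Pool.Agent.H91.Edge (zc zc_nonneg summable_zc ps hyp_fac cutP hyp_cut)

variable {N i b : ℕ} {P : ℕ → Polynomial ℂ}

/-- The twisted Euler product. -/
noncomputable def LP {q : ℕ} (N : ℕ) (P : ℕ → Polynomial ℂ) (s : ℂ)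
    (ψ : DirichletCharacter ℂ q) : ℂ :=
  ∏' p : Idx N, ((P p).eval (ψ (p : ℕ) * ((p : ℕ):ℂ) ^ (-s)))⁻¹

/-- Its logarithm. -/
noncomputable def LG {q : ℕ} (N : ℕ) (P : ℕ → Polynomial ℂ) (s : ℂ)
    (ψ : DirichletCharacter ℂ q) : ℂ :=
  TS (fun (ψ : DirichletCharacter ℂ q) (n : ℕ) => ψ n) (lc N P s) nu ψ

lemma LP_eq {q : ℕ} [NeZero q] (H : Hyp N i b P) {s : ℂ} {h : ℝ} (hh : 0 < h)
    (hs : s.re = 1 + (i:ℝ)/2 + h) (ψ : DirichletCharacter ℂ q) :
    LP N P s ψ = Complex.exp (LG N P s ψ) := by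
  letI : MeasurableSpace (DirichletCharacter ℂ q) := ⊤
  exact (hasProd_tw (fam_char q) H hh hs ψ).tprod_eq

lemma LP_ne {q : ℕ} [NeZero q] (H : Hyp N i b P) {s : ℂ} {h : ℝ} (hh : 0 < h)
    (hs : s.re = 1 + (i:ℝ)/2 + h) (ψ : DirichletCharacter ℂ q) : LP N P s ψ ≠ 0 := by
  rw [LP_eq H hh hs]
  exact Complex.exp_ne_zero _

lemma summable_LG {q : ℕ} [NeZero q] (H : Hyp N i b P) {s : ℂ} {h : ℝ} (hh : 0 < h)
    (hs : s.re = 1 + (i:ℝ)/2 + h) (ψ : DirichletCharacter ℂ q) :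
    Summable fun x => lc N P s x *
      EE (fun (ψ : DirichletCharacter ℂ q) (n : ℕ) => ψ n) (nu x) ψ := by
  letI : MeasurableSpace (DirichletCharacter ℂ q) := ⊤
  exact summable_TS (fam_char q) ((summable_zc hh).mul_left (b:ℝ)) (norm_lc_le H hs) nu ψ

/-- Prime powers as positive integers. -/
def jj (x : Nat.Primes × ℕ) : ℕ+ := ⟨(x.1 : ℕ) ^ (x.2 + 1), Nat.pow_pos x.1.2.pos⟩

lemma jj_inj : Function.Injective jj := by
  intro x y hxy
  apply Nat.Primes.prodNatEquiv.injective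
  apply Subtype.ext
  have h1 := congrArg (fun n : ℕ+ => (n : ℕ)) hxy
  simp only [jj, PNat.mk_coe] at h1
  exact h1

lemma LG_eq {q : ℕ} (s : ℂ) (ψ : DirichletCharacter ℂ q) :
    LG N P s ψ = ∑' x : Nat.Primes × ℕ, lc N P s (x.1, x.2 + 1) * ψ (jj x : ℕ) := by
  unfold LG TS
  have hinj : Function.Injective (fun x : Nat.Primes × ℕ => (x.1, x.2 + 1)) := by
    rintro ⟨a, k⟩ ⟨c, l⟩ h
    simp only [Prod.mk.injEq, Nat.add_right_cancel_iff] at h
    exact Prod.ext h.1 h.2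
  rw [← hinj.tsum_eq]
  · apply tsum_congr
    intro x
    unfold EE nu jj
    simp
  · rintro ⟨p, k⟩ hx
    rcases k with _ | k
    · exfalso
      rw [Function.mem_support] at hx
      apply hx
      unfold lc
      simp
    · exact ⟨(p, k), rfl⟩

lemma norm_lc_fac (H : Hyp N i b P) {s : ℂ} {h : ℝ}
    (hs : s.re = 1 + (i:ℝ)/2 + h) (y : ℕ) (x : Nat.Primes × ℕ) :
    ‖lc (N * y.factorial) P s (x.1, x.2 + 1)‖ ≤
      if y < (jj x : ℕ) then (b:ℝ) * ((jj x : ℕ) : ℝ) ^ (-(1 + h)) else 0 := by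
  by_cases hx : (x.1 : ℕ) ≤ y
  · have h1 : lc (N * y.factorial) P s (x.1, x.2 + 1) = 0 := by
      unfold lc
      rw [if_pos]
      exact dvd_mul_of_dvd_right (Nat.dvd_factorial x.1.2.pos hx) _
    rw [h1, norm_zero]
    split_ifs
    · positivity
    · exact le_rfl
  · have h2 : y < (jj x : ℕ) := by
      have h3 : (x.1 : ℕ) ≤ (jj x : ℕ) := Nat.le_self_pow (by omega) _
      omega
    rw [if_pos h2]
    refine (norm_lc_le (hyp_fac H y) hs _).trans ?_
    apply mul_le_mul_of_nonneg_left _ (Nat.cast_nonneg _)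
    unfold zc jj
    simp only [PNat.mk_coe]
    push_cast
    rw [← Real.rpow_natCast (((x.1 : ℕ) : ℝ) ^ (-(1 + h))), ← Real.rpow_natCast ((x.1 : ℕ) : ℝ),
      ← Real.rpow_mul (Nat.cast_nonneg _), ← Real.rpow_mul (Nat.cast_nonneg _)]
    push_cast
    rw [mul_comm (-(1 + h))]
    apply div_le_self (by positivity)
    have : (0:ℝ) ≤ x.2 := Nat.cast_nonneg _
    linarith

lemma tau2_ne_top (y : ℕ) : tau2 y ≠ ⊤ := by
  have h1 : Summable fun n : ℕ+ => ((((n : ℕ) : ℝ)⁻¹) ^ 2) := by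
    have h2 : Summable fun n : ℕ => (((n : ℝ)⁻¹) ^ 2) := by
      simp_rw [inv_pow]
      exact Real.summable_nat_pow_inv.mpr (by norm_num)
    exact h2.comp_injective PNat.coe_injective
  have h3 : tau2 y ≤ ∑' n : ℕ+, ENNReal.ofReal ((((n : ℕ) : ℝ)⁻¹) ^ 2) := by
    unfold tau2
    apply ENNReal.tsum_le_tsum
    intro n
    split_ifs
    · exact le_rfl
    · exact zero_le
  rw [← ENNReal.ofReal_tsum_of_nonneg (fun n => by positivity) h1] at h3
  exact ne_top_of_le_ne_top ENNReal.ofReal_ne_top h3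

open Classical in
lemma second_LG (H : Hyp N i b P) {s : ℂ} {h : ℝ} (hh : 0 < h) (h1 : h ≤ 1)
    (hs : s.re = 1 + (i:ℝ)/2 + h) (y : ℕ) (q : ℕ) [NeZero q] :
    ∑ ψ : DirichletCharacter ℂ q, ‖LG (N * y.factorial) P s ψ‖ ^ 2 ≤
      q.totient * ((b:ℝ) ^ 2 * ((tau2 y).toReal + 12 * ((q:ℝ) * h ^ 2)⁻¹)) := by
  have hq0 : 0 < q := Nat.pos_of_ne_zero (NeZero.ne q)
  simp_rw [LG_eq]
  set C : Nat.Primes × ℕ → ℝ := fun x =>
    if y < (jj x : ℕ) then (b:ℝ) * ((jj x : ℕ) : ℝ) ^ (-(1 + h)) else 0 with hCdef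
  have hC : Summable C := by
    have h2 : Summable fun n : ℕ+ => ((n : ℕ) : ℝ) ^ (-(1 + h)) :=
      (Real.summable_nat_rpow.mpr (by linarith)).comp_injective PNat.coe_injective
    have h3 := (h2.comp_injective jj_inj).mul_left (b:ℝ)
    refine Summable.of_nonneg_of_le (fun x => ?_) (fun x => ?_) h3
    · rw [hCdef]
      simp only
      split_ifs <;> positivity
    · rw [hCdef]
      simp only [Function.comp]
      split_ifs
      · exact le_rfl
      · positivity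
  have h2 := second_moment (q := q) (fun x => (jj x : ℕ)) hC (norm_lc_fac H hs y)
  have h3 : ∑' x : (Nat.Primes × ℕ) × (Nat.Primes × ℕ), (if Cg q (jj x.1) (jj x.2) then
        ENNReal.ofReal (C x.1) * ENNReal.ofReal (C x.2) else 0) ≤
      ENNReal.ofReal ((b:ℝ) ^ 2) * (tau2 y + 2 * (BB q 1 h * ZZ h)) := by
    set G : ℕ+ × ℕ+ → ℝ≥0∞ := fun x => ENNReal.ofReal ((b:ℝ) ^ 2) *
      (if Cg q x.1 x.2 then (if y < (x.1 : ℕ) then wt h x.1 else 0) *
        (if y < (x.2 : ℕ) then wt h x.2 else 0) else 0) with hG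
    have h4 : ∀ x : (Nat.Primes × ℕ) × (Nat.Primes × ℕ), (if Cg q (jj x.1) (jj x.2) then
        ENNReal.ofReal (C x.1) * ENNReal.ofReal (C x.2) else 0) = G (Prod.map jj jj x) := by
      intro x
      have h5 : ∀ z : Nat.Primes × ℕ, ENNReal.ofReal (C z) =
          ENNReal.ofReal b * (if y < (jj z : ℕ) then wt h (jj z) else 0) := by
        intro z
        rw [hCdef]
        simp only
        split_ifs
        · rw [ENNReal.ofReal_mul (Nat.cast_nonneg _)]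
          rfl
        · simp
      rw [h5, h5, hG]
      simp only [Prod.map_fst, Prod.map_snd]
      by_cases hc : Cg q (jj x.1) (jj x.2)
      · rw [if_pos hc, if_pos hc, sq, ENNReal.ofReal_mul (Nat.cast_nonneg _)]
        ring
      · rw [if_neg hc, if_neg hc, mul_zero]
    simp_rw [h4]
    refine (ENNReal.tsum_comp_le_tsum_of_injective (jj_inj.prodMap jj_inj) G).trans ?_
    rw [hG, ENNReal.tsum_mul_left]
    gcongr
    exact tail_count hq0 hh y
  have h4 := h2.trans (mul_le_mul_right h3 (q.totient : ℝ≥0∞))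
  have h5 : (q.totient : ℝ≥0∞) * (ENNReal.ofReal ((b:ℝ) ^ 2) *
      (tau2 y + 2 * (BB q 1 h * ZZ h))) ≤ ENNReal.ofReal (q.totient *
        ((b:ℝ) ^ 2 * ((tau2 y).toReal + 12 * ((q:ℝ) * h ^ 2)⁻¹))) := by
    rw [ENNReal.ofReal_mul (Nat.cast_nonneg _), ENNReal.ofReal_mul (by positivity),
      ENNReal.ofReal_add ENNReal.toReal_nonneg (by positivity),
      ENNReal.ofReal_toReal (tau2_ne_top y), ENNReal.ofReal_natCast]
    gcongr
    calc 2 * (BB q 1 h * ZZ h) ≤ 2 * ENNReal.ofReal (6 * ((q:ℝ) * h ^ 2)⁻¹) := by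
          gcongr
          exact BB_one_le hq0 hh h1
      _ = ENNReal.ofReal (12 * ((q:ℝ) * h ^ 2)⁻¹) := by
          have e2 : (2:ℝ≥0∞) = ENNReal.ofReal 2 := by simp
          rw [e2, ← ENNReal.ofReal_mul (by norm_num)]
          congr 1
          ring
  exact (ENNReal.ofReal_le_ofReal_iff (by positivity)).mp (h4.trans h5)

/-- Truncated second moments of the tails. -/
lemma tail_LP (H : Hyp N i b P) {s : ℂ} {h : ℝ} (hh : 0 < h) (h1 : h ≤ 1)
    (hs : s.re = 1 + (i:ℝ)/2 + h) (y : ℕ) (q : ℕ) [NeZero q] :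
    ∑ ψ : DirichletCharacter ℂ q, min 1 (‖LP (N * y.factorial) P s ψ - 1‖ ^ 2) ≤
      q.totient * (4 * (b:ℝ) ^ 2 * ((tau2 y).toReal + 12 * ((q:ℝ) * h ^ 2)⁻¹)) := by
  have h2 := second_LG H hh h1 hs y q
  have h3 : ∀ ψ : DirichletCharacter ℂ q, min 1 (‖LP (N * y.factorial) P s ψ - 1‖ ^ 2) ≤
      4 * ‖LG (N * y.factorial) P s ψ‖ ^ 2 := by
    intro ψ
    rw [LP_eq (hyp_fac H y) hh hs]
    set D := LG (N * y.factorial) P s ψ
    rcases le_total ‖D‖ 1 with h4 | h4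
    · have h5 := Complex.norm_exp_sub_one_le h4
      calc min 1 (‖Complex.exp D - 1‖ ^ 2) ≤ ‖Complex.exp D - 1‖ ^ 2 := min_le_right _ _
        _ ≤ (2 * ‖D‖) ^ 2 := pow_le_pow_left₀ (norm_nonneg _) h5 2
        _ = 4 * ‖D‖ ^ 2 := by ring
    · calc min 1 (‖Complex.exp D - 1‖ ^ 2) ≤ 1 := min_le_left _ _
        _ ≤ 4 * ‖D‖ ^ 2 := by nlinarith
  calc _ ≤ ∑ ψ : DirichletCharacter ℂ q, 4 * ‖LG (N * y.factorial) P s ψ‖ ^ 2 :=
        Finset.sum_le_sum fun ψ _ => h3 ψ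
    _ = 4 * ∑ ψ : DirichletCharacter ℂ q, ‖LG (N * y.factorial) P s ψ‖ ^ 2 := by
        rw [Finset.mul_sum]
    _ ≤ _ := by
        have := mul_le_mul_of_nonneg_left h2 (show (0:ℝ) ≤ 4 by norm_num)
        refine this.trans (le_of_eq ?_)
        ring

/-- The factorization. -/
lemma LP_mul (H : Hyp N i b P) {s : ℂ} {h : ℝ} (hh : 0 < h)
    (hs : s.re = 1 + (i:ℝ)/2 + h) (y : ℕ) {q : ℕ} [NeZero q] (ψ : DirichletCharacter ℂ q) :
    LP N P s ψ = LP N (cutP P y) s ψ * LP (N * y.factorial) P s ψ := by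
  rw [LP_eq H hh hs, LP_eq (hyp_cut H y) hh hs, LP_eq (hyp_fac H y) hh hs, ← Complex.exp_add]
  congr 1
  unfold LG TS
  rw [← (summable_LG (hyp_cut H y) hh hs ψ).tsum_add (summable_LG (hyp_fac H y) hh hs ψ)]
  apply tsum_congr
  intro x
  rw [← add_mul]
  congr 1
  unfold lc cutP
  by_cases hx : (x.1 : ℕ) ≤ y
  · have h3 : ((x.1 : ℕ) ∣ N * y.factorial) :=
      dvd_mul_of_dvd_right (Nat.dvd_factorial x.1.2.pos hx) _
    rw [if_pos h3, add_zero, if_pos hx]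
  · have h3 : ((x.1 : ℕ) ∣ N * y.factorial) ↔ ((x.1 : ℕ) ∣ N) := by
      constructor
      · intro h4
        rcases (Nat.Prime.dvd_mul x.1.2).mp h4 with h5 | h5
        · exact h5
        · exact absurd ((Nat.Prime.dvd_factorial x.1.2).mp h5) hx
      · exact fun h4 => dvd_mul_of_dvd_left h4 _
    rw [if_neg hx]
    by_cases h4 : (x.1 : ℕ) ∣ N
    · rw [if_pos h4, if_pos h4, if_pos (h3.mpr h4), add_zero]
    · rw [if_neg h4, if_neg h4, if_neg (fun h5 => h4 (h3.mp h5))]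
      unfold ps
      simp

end Pool.Agent.H81.ED
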