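import Mathlib
import Pool.Agent.H81.ED.TailL
import Pool.Agent.H81.ED.Equi
import Pool.Agent.H91.Edge.Dist4

/-!
# ED, Law: the limiting law in the modulus aspect
-/

set_option autoImplicit false

open MeasureTheory Filter Topology
open scoped ENNReal

namespace Pool.Agent.H81.ED

open Pool.Agent.H89.EdgeBasic
open Pool.Agent.H91.Edge (hyp_fac cutP hyp_cut Psi continuous_phi_Psi Psi_mk tmean gg gg_nonneg
  mult_cont cube Psi_ne)

section single

variable {N i b : ℕ} {P : ℕ → Polynomial ℂ}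

/-- The random Euler product with a shift. -/
noncomputable def Psh (N i : ℕ) (P : ℕ → Polynomial ℂ) (y : ℕ) (h : ℝ)
    (x : UnitAddTorus (Nat.primesBelow (y + 1))) : ℂ :=
  ∏ p : Nat.primesBelow (y + 1), if (p:ℕ) ∣ N then 1 else
    ((P p).eval ((AddCircle.toCircle (x p) : ℂ) * ((p:ℕ):ℂ) ^ (-(1 + (i:ℂ)/2 + (h:ℂ)))))⁻¹

lemma Psh_zero (y : ℕ) (x : UnitAddTorus (Nat.primesBelow (y + 1))) :
    Psh N i P y 0 x = Psi N i P y x := by
  unfold Psh Psi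
  simp

lemma eval_ne (H : Hyp N i b P) {p : ℕ} (hp : p.Prime) (hpN : ¬ p ∣ N) {c : ℂ} (hc : ‖c‖ = 1)
    {h : ℝ} (hh : 0 ≤ h) : (P p).eval (c * (p:ℂ) ^ (-(1 + (i:ℂ)/2 + (h:ℂ)))) ≠ 0 := by
  intro h0
  have h1 := H.hroots p hp hpN _ h0
  rw [norm_mul, hc, one_mul, Complex.norm_natCast_cpow_of_pos hp.pos] at h1
  have hre : (-(1 + (i:ℂ)/2 + (h:ℂ))).re = -(1 + (i:ℝ)/2 + h) := by simp
  rw [hre] at h1
  have hp1 : (1:ℝ) < p := by exact_mod_cast hp.one_lt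
  rw [Real.rpow_le_rpow_left_iff hp1] at h1
  linarith

lemma continuous_Psh (H : Hyp N i b P) (y : ℕ) :
    Continuous fun z : ℝ × UnitAddTorus (Nat.primesBelow (y + 1)) =>
      Psh N i P y (max z.1 0) z.2 := by
  unfold Psh
  apply continuous_finsetProd
  intro p _
  by_cases hp : (p:ℕ) ∣ N
  · simp only [if_pos hp]
    exact continuous_const
  · simp only [if_neg hp]
    have hpp := Nat.prime_of_mem_primesBelow p.2
    have hp0 : ((p:ℕ):ℂ) ≠ 0 := by exact_mod_cast hpp.ne_zero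
    apply Continuous.inv₀
    · apply (P p).continuous.comp
      apply Continuous.mul
      · exact continuous_subtype_val.comp (AddCircle.continuous_toCircle.comp
          ((continuous_apply p).comp continuous_snd))
      · apply Continuous.const_cpow _ (Or.inl hp0)
        have h1 : Continuous fun z : ℝ × UnitAddTorus (Nat.primesBelow (y + 1)) =>
            ((max z.1 0 : ℝ) : ℂ) :=
          Complex.continuous_ofReal.comp (continuous_fst.max continuous_const)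
        fun_prop
    · intro z
      exact eval_ne H hpp hp (Circle.norm_coe _) (le_max_right _ _)

lemma Psh_ne (H : Hyp N i b P) (y : ℕ) {h : ℝ} (hh : 0 ≤ h)
    (x : UnitAddTorus (Nat.primesBelow (y + 1))) : Psh N i P y h x ≠ 0 := by
  unfold Psh
  rw [Finset.prod_ne_zero_iff]
  intro p _
  split_ifs with hp
  · exact one_ne_zero
  · exact inv_ne_zero (eval_ne H (Nat.prime_of_mem_primesBelow p.2) hp (Circle.norm_coe _) hh)

/-- The truncated product as a value of the random one. -/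
lemma LP_cut {y q : ℕ} (hc : Cop y q) (h t : ℝ) (ψ : DirichletCharacter ℂ q) :
    LP N (cutP P y) (1 + (i:ℂ)/2 + (h:ℂ) + t * Complex.I) ψ = Psh N i P y h (tp y t ψ) := by
  unfold LP Psh
  set s : ℂ := 1 + (i:ℂ)/2 + (h:ℂ) + t * Complex.I with hs
  set g : ℕ → ℂ := fun p => ((cutP P y p).eval (ψ (p : ZMod q) * (p:ℂ) ^ (-s)))⁻¹ with hg
  have h1 : ∏' p : Idx N, ((cutP P y p).eval (ψ ((p : ℕ) : ZMod q) * ((p : ℕ):ℂ) ^ (-s)))⁻¹ =
      ∏' n : ℕ, Set.mulIndicator {p : ℕ | p.Prime ∧ ¬ p ∣ N} g n :=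
    tprod_subtype {p : ℕ | p.Prime ∧ ¬ p ∣ N} g
  rw [h1, tprod_eq_prod (s := Nat.primesBelow (y + 1))]
  · rw [← Finset.prod_coe_sort]
    apply Finset.prod_congr rfl
    intro p _
    have hpp := Nat.prime_of_mem_primesBelow p.2
    have hp0 : ((p:ℕ):ℂ) ≠ 0 := by exact_mod_cast hpp.ne_zero
    by_cases hp : (p:ℕ) ∣ N
    · rw [if_pos hp, Set.mulIndicator_of_notMem]
      intro hmem
      exact hmem.2 hp
    · rw [if_neg hp, Set.mulIndicator_of_mem (show (p:ℕ) ∈ {p : ℕ | p.Prime ∧ ¬ p ∣ N} from ⟨hpp, hp⟩)]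
      rw [hg]
      simp only
      have hlt := Nat.lt_of_mem_primesBelow p.2
      unfold cutP
      rw [if_pos (by omega), toCircle_tp hc]
      congr 2
      rw [mul_assoc, ← Complex.cpow_add _ _ hp0]
      congr 2
      rw [hs]
      ring
  · intro n hn
    by_cases hmem : n ∈ {p : ℕ | p.Prime ∧ ¬ p ∣ N}
    · rw [Set.mulIndicator_of_mem hmem, hg]
      simp only
      unfold cutP
      rw [if_neg]
      · simp
      · intro hle
        apply hn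
        rw [Nat.mem_primesBelow]
        exact ⟨by omega, hmem.1⟩
    · exact Set.mulIndicator_of_notMem hmem _

end single

section family

variable {κ : Type} [Fintype κ] {N i b : κ → ℕ} {P : κ → ℕ → Polynomial ℂ}

/-- Uniform convergence of the shifted random products. -/
lemma shift_small (H : ∀ k, Hyp (N k) (i k) (b k) (P k)) {φ : (κ → ℂ) → ℂ}
    (hφ : ContinuousOn φ {z | ∀ k, z k ≠ 0}) (y : ℕ) {ε : ℝ} (hε : 0 < ε) :
    ∃ δ : ℝ, 0 < δ ∧ ∀ h : ℝ, 0 ≤ h → h ≤ δ → ∀ x : UnitAddTorus (Nat.primesBelow (y + 1)),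
      ‖φ (fun k => Psh (N k) (i k) (P k) y h x) - φ (fun k => Psi (N k) (i k) (P k) y x)‖ ≤ ε := by
  have hcont : Continuous fun z : ℝ × UnitAddTorus (Nat.primesBelow (y + 1)) =>
      φ (fun k => Psh (N k) (i k) (P k) y (max z.1 0) z.2) := by
    have h1 : Continuous fun z : ℝ × UnitAddTorus (Nat.primesBelow (y + 1)) =>
        (fun k => Psh (N k) (i k) (P k) y (max z.1 0) z.2) :=
      continuous_pi fun k => continuous_Psh (H k) y
    exact hφ.comp_continuous h1 fun z k => Psh_ne (H k) y (le_max_right _ _) z.2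
  set F : C(ℝ, C(UnitAddTorus (Nat.primesBelow (y + 1)), ℂ)) :=
    ContinuousMap.curry ⟨_, hcont⟩ with hF
  have h1 := (F.continuous.tendsto 0).eventually (Metric.closedBall_mem_nhds (F 0) hε)
  obtain ⟨δ, hδ, h2⟩ := Metric.eventually_nhds_iff.mp h1
  refine ⟨δ / 2, by linarith, fun h hh hle x => ?_⟩
  have h3 : dist h 0 < δ := by
    rw [Real.dist_eq, sub_zero, abs_of_nonneg hh]
    linarith
  have h4 := h2 h3
  rw [dist_eq_norm] at h4
  have h5 := ((F h - F 0).norm_coe_le_norm x).trans h4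
  have e1 : F h x = φ (fun k => Psh (N k) (i k) (P k) y h x) := by
    rw [hF]
    simp only [ContinuousMap.curry_apply, ContinuousMap.coe_mk]
    rw [max_eq_left hh]
  have e2 : F 0 x = φ (fun k => Psi (N k) (i k) (P k) y x) := by
    rw [hF]
    simp only [ContinuousMap.curry_apply, ContinuousMap.coe_mk, max_self]
    simp_rw [Psh_zero]
  rw [ContinuousMap.sub_apply, e1, e2] at h5
  exact h5

lemma exists_exp {l M : ℝ} (hbl : ∀ k, (b k : ℝ) * l < M) :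
    ∃ l' : ℝ, l < l' ∧ ∀ k, (b k : ℝ) * l' ≤ M := by
  have h1 : ∀ k, ∀ᶠ x : ℝ in 𝓝[>] l, (b k : ℝ) * x ≤ M := by
    intro k
    have hc : Continuous fun x : ℝ => (b k : ℝ) * x := by fun_prop
    exact nhdsWithin_le_nhds ((hc.tendsto l).eventually (ge_mem_nhds (hbl k)))
  have h2 := (Filter.eventually_all.mpr h1).and (self_mem_nhdsWithin (s := Set.Ioi l) (a := l))
  obtain ⟨x, hx1, hx2⟩ := h2.exists
  exact ⟨x, hx2, hx1⟩

/-- The edge of the admissible range tends to zero fast enough. -/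
lemma qh_bound {q m : ℕ} (hq : 0 < q) (hm : 2 ≤ m) {h : ℝ}
    (hlow : (q : ℝ) ^ (-(1 / (2 * (m:ℝ) ^ 2))) ≤ h) : ((q:ℝ) * h ^ 2)⁻¹ ≤ (q:ℝ) ^ (-(3/4 : ℝ)) := by
  have hq0 : (0:ℝ) < q := by exact_mod_cast hq
  have hq1 : (1:ℝ) ≤ q := by exact_mod_cast hq
  have hm2 : (2:ℝ) ≤ m := by exact_mod_cast hm
  have h1 : (q:ℝ) ^ (-(1/4 : ℝ)) ≤ h ^ 2 := by
    calc (q:ℝ) ^ (-(1/4 : ℝ)) ≤ ((q : ℝ) ^ (-(1 / (2 * (m:ℝ) ^ 2)))) ^ 2 := by
          rw [← Real.rpow_natCast ((q : ℝ) ^ (-(1 / (2 * (m:ℝ) ^ 2)))), ← Real.rpow_mul hq0.le]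
          apply Real.rpow_le_rpow_of_exponent_le hq1
          push_cast
          have h2 : (4:ℝ) ≤ (m:ℝ) ^ 2 := by nlinarith
          have h3 : 1 / (2 * (m:ℝ) ^ 2) ≤ 1 / 8 := by
            apply one_div_le_one_div_of_le (by norm_num)
            linarith
          linarith
      _ ≤ h ^ 2 := pow_le_pow_left₀ (by positivity) hlow 2
  calc ((q:ℝ) * h ^ 2)⁻¹ ≤ ((q:ℝ) * (q:ℝ) ^ (-(1/4 : ℝ)))⁻¹ := by
        apply inv_anti₀ (by positivity)
        gcongr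
    _ = (q:ℝ) ^ (-(3/4 : ℝ)) := by
        rw [← Real.rpow_one_add' hq0.le (by norm_num), ← Real.rpow_neg hq0.le]
        norm_num

/-- The comparison with the random products. -/
theorem compare (H : ∀ k, Hyp (N k) (i k) (b k) (P k)) {φ : (κ → ℂ) → ℂ} {l C : ℝ} (hl : 0 ≤ l)
    (hC : 0 ≤ C) (hφ : ContinuousOn φ {z | ∀ k, z k ≠ 0})
    (hgr : ∀ z : κ → ℂ, (∀ k, z k ≠ 0) → ‖φ z‖ ≤ C * (1 + gg l z)) {m : ℕ} (hm : 2 ≤ m)
    (hbl : ∀ k, (b k : ℝ) * l < 2 * m) {ε : ℝ} (hε : 0 < ε) :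
    ∃ y0 : ℕ, ∀ y : ℕ, y0 ≤ y → ∃ (Q : ℕ) (δ : ℝ), 0 < δ ∧ ∀ (q : ℕ) [NeZero q], Q ≤ q → Cop y q →
      ∀ h : ℝ, (q : ℝ) ^ (-(1 / (2 * (m:ℝ) ^ 2))) ≤ h → h ≤ δ → ∀ t : ℝ,
        ‖(∑ ψ : DirichletCharacter ℂ q,
          φ (fun k => LP (N k) (P k) (1 + (i k:ℂ)/2 + (h:ℂ) + t * Complex.I) ψ)) / q.totient -
          tmean ⟨fun x => φ (fun k => Psi (N k) (i k) (P k) y x), continuous_phi_Psi H hφ y⟩‖ ≤
            ε := by
  obtain ⟨l', hll, hbl'⟩ := exists_exp hbl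
  have hl'0 : 0 < l' := by linarith
  obtain ⟨M, hM, hM2⟩ := q_moment m (by omega)
  set K : ℝ := ((Fintype.card κ : ℕ) : ℝ) with hK
  have hK0 : 0 ≤ K := Nat.cast_nonneg _
  set ε1 : ℝ := ε / (4 * (1 + 4 * K * M)) with hε1
  have hε1p : 0 < ε1 := by positivity
  obtain ⟨A, hA0, hA⟩ := mult_cont hl hll hC hφ hgr hε1p
  set S : ℝ := ∑ k, 4 * (b k : ℝ) ^ 2 with hS
  have hS0 : 0 ≤ S := Finset.sum_nonneg fun k _ => by positivity
  have htau : Tendsto (fun y : ℕ => A * (S * (tau2 y).toReal)) atTop (𝓝 0) := by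
    have h1 : Tendsto (fun y : ℕ => (tau2 y).toReal) atTop (𝓝 0) := by
      have h2 := (ENNReal.tendsto_toReal ENNReal.zero_ne_top).comp tendsto_tau2
      rw [ENNReal.toReal_zero] at h2
      exact h2
    simpa using (h1.const_mul S).const_mul A
  obtain ⟨y0, hy0⟩ := eventually_atTop.mp
    (htau.eventually (ge_mem_nhds (show (0:ℝ) < ε / 8 by linarith)))
  refine ⟨y0, fun y hy => ?_⟩
  obtain ⟨δ1, hδ1, h1⟩ := shift_small H hφ y (show (0:ℝ) < ε / 4 by linarith)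
  set F : C(UnitAddTorus (Nat.primesBelow (y + 1)), ℂ) :=
    ⟨fun x => φ (fun k => Psi (N k) (i k) (P k) y x), continuous_phi_Psi H hφ y⟩ with hF
  obtain ⟨Q1, hQ1⟩ := equi y F (ε / 4) (by linarith)
  have hqt : Tendsto (fun q : ℕ => A * (S * (12 * (q:ℝ) ^ (-(3/4 : ℝ))))) atTop (𝓝 0) := by
    have h2 : Tendsto (fun q : ℕ => (q:ℝ) ^ (-(3/4 : ℝ))) atTop (𝓝 0) :=
      (tendsto_rpow_neg_atTop (by norm_num)).comp tendsto_natCast_atTop_atTop
    simpa using ((h2.const_mul 12).const_mul S).const_mul A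
  obtain ⟨Q2, hQ2⟩ := eventually_atTop.mp
    (hqt.eventually (ge_mem_nhds (show (0:ℝ) < ε / 8 by linarith)))
  refine ⟨max Q1 Q2, min δ1 1, lt_min hδ1 one_pos, ?_⟩
  intro q hqz hq hcop h hlow hle t
  have hq0 : 0 < q := Nat.pos_of_ne_zero (NeZero.ne q)
  have hqr : (0:ℝ) < q := by exact_mod_cast hq0
  have hh : 0 < h := (Real.rpow_pos_of_pos hqr _).trans_le hlow
  have hh1 : h ≤ 1 := hle.trans (min_le_right _ _)
  have hhδ : h ≤ δ1 := hle.trans (min_le_left _ _)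
  have htp := tot_pos q
  have hsre : ∀ k, (1 + (i k:ℂ)/2 + (h:ℂ) + t * Complex.I).re = 1 + (i k:ℝ)/2 + h := by
    intro k
    simp
  -- the moments
  have habs : ∀ k, (b k : ℝ) * |l'| ≤ 2 * m := by
    intro k
    rw [abs_of_pos hl'0]
    exact hbl' k
  have habs' : ∀ k, (b k : ℝ) * |(-l')| ≤ 2 * m := by
    intro k
    rw [abs_neg]
    exact habs k
  have hcardκ : ∀ c : ℝ, ∑ _k : κ, c = K * c := by
    intro c
    rw [Finset.sum_const, Finset.card_univ, nsmul_eq_mul]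
  have hmom : ∀ P' : κ → ℕ → Polynomial ℂ, (∀ k, Hyp (N k) (i k) (b k) (P' k)) →
      ∑ ψ : DirichletCharacter ℂ q,
        gg l' (fun k => LP (N k) (P' k) (1 + (i k:ℂ)/2 + (h:ℂ) + t * Complex.I) ψ) ≤
        2 * K * M * q.totient := by
    intro P' H'
    unfold gg
    rw [Finset.sum_comm]
    calc _ ≤ ∑ _k : κ, 2 * (M * q.totient) := by
          apply Finset.sum_le_sum
          intro k _
          rw [Finset.sum_add_distrib, two_mul]
          exact add_le_add (hM2 (N k) (i k) (b k) (P' k) (H' k) q _ h l' (hsre k) hlow (habs k))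
            (hM2 (N k) (i k) (b k) (P' k) (H' k) q _ h (-l') (hsre k) hlow (habs' k))
      _ = 2 * K * M * q.totient := by
          rw [hcardκ]
          ring
  -- first comparison
  have hpt : ∀ ψ : DirichletCharacter ℂ q,
      ‖φ (fun k => LP (N k) (P k) (1 + (i k:ℂ)/2 + (h:ℂ) + t * Complex.I) ψ) -
        φ (fun k => LP (N k) (cutP (P k) y) (1 + (i k:ℂ)/2 + (h:ℂ) + t * Complex.I) ψ)‖ ≤
      ε1 * (1 + gg l' (fun k => LP (N k) (P k) (1 + (i k:ℂ)/2 + (h:ℂ) + t * Complex.I) ψ) +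
        gg l' (fun k => LP (N k) (cutP (P k) y) (1 + (i k:ℂ)/2 + (h:ℂ) + t * Complex.I) ψ)) +
      A * ∑ k, min 1 (‖LP (N k * y.factorial) (P k)
        (1 + (i k:ℂ)/2 + (h:ℂ) + t * Complex.I) ψ - 1‖ ^ 2) := by
    intro ψ
    have h2 := hA (fun k => LP (N k) (cutP (P k) y) (1 + (i k:ℂ)/2 + (h:ℂ) + t * Complex.I) ψ)
      (fun k => LP (N k * y.factorial) (P k) (1 + (i k:ℂ)/2 + (h:ℂ) + t * Complex.I) ψ)
      (fun k => LP_ne (hyp_cut (H k) y) hh (hsre k) ψ)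
      (fun k => LP_ne (hyp_fac (H k) y) hh (hsre k) ψ)
    have h3 : (fun k => LP (N k) (cutP (P k) y) (1 + (i k:ℂ)/2 + (h:ℂ) + t * Complex.I) ψ *
        LP (N k * y.factorial) (P k) (1 + (i k:ℂ)/2 + (h:ℂ) + t * Complex.I) ψ) =
        fun k => LP (N k) (P k) (1 + (i k:ℂ)/2 + (h:ℂ) + t * Complex.I) ψ := by
      funext k
      exact (LP_mul (H k) hh (hsre k) y ψ).symm
    simp only [h3] at h2
    exact h2
  have hcmp1 : ∑ ψ : DirichletCharacter ℂ q,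
      ‖φ (fun k => LP (N k) (P k) (1 + (i k:ℂ)/2 + (h:ℂ) + t * Complex.I) ψ) -
        φ (fun k => LP (N k) (cutP (P k) y) (1 + (i k:ℂ)/2 + (h:ℂ) + t * Complex.I) ψ)‖ ≤
      ε / 2 * q.totient := by
    have h2 := Finset.sum_le_sum fun ψ (_ : ψ ∈ Finset.univ) => hpt ψ
    refine h2.trans ?_
    rw [Finset.sum_add_distrib, ← Finset.mul_sum, ← Finset.mul_sum, Finset.sum_add_distrib,
      Finset.sum_add_distrib, Finset.sum_const, Finset.card_univ, card_char, nsmul_eq_mul, mul_one,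
      Finset.sum_comm]
    have h3 := hmom P H
    have h4 := hmom (fun k => cutP (P k) y) (fun k => hyp_cut (H k) y)
    have h5 : ∑ k, ∑ ψ : DirichletCharacter ℂ q, min 1 (‖LP (N k * y.factorial) (P k)
        (1 + (i k:ℂ)/2 + (h:ℂ) + t * Complex.I) ψ - 1‖ ^ 2) ≤
        q.totient * (S * ((tau2 y).toReal + 12 * ((q:ℝ) * h ^ 2)⁻¹)) := by
      rw [hS, Finset.sum_mul, Finset.mul_sum]
      exact Finset.sum_le_sum fun k _ => tail_LP (H k) hh hh1 (hsre k) y q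
    have h6 := qh_bound hq0 hm hlow
    have h7 := hy0 y hy
    have h8 := hQ2 q ((le_max_right _ _).trans hq)
    have h9 : A * (S * ((tau2 y).toReal + 12 * ((q:ℝ) * h ^ 2)⁻¹)) ≤ ε / 4 := by
      calc A * (S * ((tau2 y).toReal + 12 * ((q:ℝ) * h ^ 2)⁻¹)) ≤
            A * (S * ((tau2 y).toReal + 12 * (q:ℝ) ^ (-(3/4 : ℝ)))) := by gcongr
        _ = A * (S * (tau2 y).toReal) + A * (S * (12 * (q:ℝ) ^ (-(3/4 : ℝ)))) := by ring
        _ ≤ ε / 4 := by linarith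
    calc _ ≤ ε1 * (q.totient + 2 * K * M * q.totient + 2 * K * M * q.totient) +
          A * (q.totient * (S * ((tau2 y).toReal + 12 * ((q:ℝ) * h ^ 2)⁻¹))) := by gcongr
      _ = ε1 * (1 + 4 * K * M) * q.totient +
          A * (S * ((tau2 y).toReal + 12 * ((q:ℝ) * h ^ 2)⁻¹)) * q.totient := by ring
      _ ≤ ε / 4 * q.totient + ε / 4 * q.totient := by
          have e1 : ε1 * (1 + 4 * K * M) = ε / 4 := by
            rw [hε1]
            field_simp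
          rw [e1]
          gcongr
      _ = ε / 2 * q.totient := by ring
  -- second comparison
  have hcmp2 : ∑ ψ : DirichletCharacter ℂ q,
      ‖φ (fun k => LP (N k) (cutP (P k) y) (1 + (i k:ℂ)/2 + (h:ℂ) + t * Complex.I) ψ) -
        F (tp y t ψ)‖ ≤ ε / 4 * q.totient := by
    calc _ ≤ ∑ _ψ : DirichletCharacter ℂ q, ε / 4 := by
          apply Finset.sum_le_sum
          intro ψ _
          simp_rw [LP_cut hcop]
          exact h1 h hh.le hhδ (tp y t ψ)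
      _ = ε / 4 * q.totient := by
          rw [Finset.sum_const, Finset.card_univ, card_char, nsmul_eq_mul]
          ring
  have hthree := hQ1 q ((le_max_left _ _).trans hq) hcop t
  set a1 := fun ψ : DirichletCharacter ℂ q =>
    φ (fun k => LP (N k) (P k) (1 + (i k:ℂ)/2 + (h:ℂ) + t * Complex.I) ψ) with ha1
  set a2 := fun ψ : DirichletCharacter ℂ q =>
    φ (fun k => LP (N k) (cutP (P k) y) (1 + (i k:ℂ)/2 + (h:ℂ) + t * Complex.I) ψ) with ha2
  have e : (∑ ψ, a1 ψ) / (q.totient : ℂ) - tmean F = (∑ ψ, (a1 ψ - a2 ψ)) / (q.totient : ℂ) +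
      (∑ ψ, (a2 ψ - F (tp y t ψ))) / (q.totient : ℂ) +
      ((∑ ψ : DirichletCharacter ℂ q, F (tp y t ψ)) / (q.totient : ℂ) - tmean F) := by
    rw [Finset.sum_sub_distrib, Finset.sum_sub_distrib]
    ring
  rw [e]
  have g1 : ‖(∑ ψ, (a1 ψ - a2 ψ)) / (q.totient : ℂ)‖ ≤ ε / 2 := by
    rw [norm_div, Complex.norm_natCast, div_le_iff₀ htp]
    exact (norm_sum_le _ _).trans hcmp1
  have g2 : ‖(∑ ψ, (a2 ψ - F (tp y t ψ))) / (q.totient : ℂ)‖ ≤ ε / 4 := by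
    rw [norm_div, Complex.norm_natCast, div_le_iff₀ htp]
    exact (norm_sum_le _ _).trans hcmp2
  refine norm_add₃_le.trans ?_
  linarith

end family

lemma large_of_primes {q Q : ℕ} (hq : 1 < q) (h : ∀ p : ℕ, p.Prime → p ∣ q → Q ≤ p) : Q ≤ q := by
  obtain ⟨p, hp, hpq⟩ := Nat.exists_prime_and_dvd (show q ≠ 1 by omega)
  exact (h p hp hpq).trans (Nat.le_of_dvd (by omega) hpq)

lemma cop_of_primes {q Q y : ℕ} (hQ : y < Q) (h : ∀ p : ℕ, p.Prime → p ∣ q → Q ≤ p) :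
    Cop y q := by
  intro p hp
  have hpp := Nat.prime_of_mem_primesBelow hp
  have hlt := Nat.lt_of_mem_primesBelow hp
  rw [Nat.Prime.coprime_iff_not_dvd hpp]
  intro hd
  have := h p hpp hd
  omega

/-- The law in the modulus aspect. -/
theorem q_law (n : ℕ) (N i b : Fin n → ℕ) (P : Fin n → ℕ → Polynomial ℂ)
    (H : ∀ j, Hyp (N j) (i j) (b j) (P j)) (φ : (Fin n → ℂ) → ℂ) (l C : ℝ) (hl : 0 ≤ l)
    (hφ : ContinuousOn φ {z | ∀ j, z j ≠ 0})
    (hgr : ∀ z : Fin n → ℂ, (∀ j, z j ≠ 0) →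
      ‖φ z‖ ≤ C * (1 + ∑ j, (‖z j‖ ^ l + ‖z j‖ ^ (-l)))) :
    ∃ m : ℂ,
      Tendsto (fun y : ℕ => ∫ θ in {x : Nat.primesBelow (y + 1) → ℝ | ∀ p, x p ∈ Set.Ioc (0:ℝ) 1},
        φ (fun k => ∏ p : Nat.primesBelow (y + 1), if (p:ℕ) ∣ N k then 1 else
          ((P k p).eval (Complex.exp (2 * Real.pi * θ p * Complex.I) *
            ((p:ℕ):ℂ) ^ (-(1 + (i k:ℂ)/2))))⁻¹)) atTop (𝓝 m) ∧
      ∀ r : ℕ, 2 ≤ r → (∀ j, (b j : ℝ) * l < 2 * r) → ∀ ε : ℝ, 0 < ε →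
        ∃ (Q : ℕ) (δ : ℝ), 0 < δ ∧ ∀ (q : ℕ) [NeZero q], (∀ p : ℕ, p.Prime → p ∣ q → Q ≤ p) →
          ∀ h t : ℝ, (q : ℝ) ^ (-(1 / (2 * (r : ℝ) ^ 2))) ≤ h → h ≤ δ →
            ‖(∑ ψ : DirichletCharacter ℂ q,
              φ (fun j => ∏' p : {p : ℕ // p.Prime ∧ ¬ p ∣ N j},
                ((P j p).eval (ψ (p : ℕ) * ((p : ℕ):ℂ) ^
                  (-(1 + (i j:ℂ)/2 + (h:ℂ) + t * Complex.I))))⁻¹)) / (Nat.totient q : ℂ) - m‖ ≤ ε := by
  have hgr' : ∀ z : Fin n → ℂ, (∀ j, z j ≠ 0) → ‖φ z‖ ≤ |C| * (1 + gg l z) := by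
    intro z hz
    refine (hgr z hz).trans ?_
    have h1 : 0 ≤ gg l z := gg_nonneg l z
    have h2 : 0 ≤ 1 + gg l z := by linarith
    exact mul_le_mul_of_nonneg_right (le_abs_self C) h2
  set M : ℕ → ℂ := fun y => tmean ⟨fun x => φ (fun k => Psi (N k) (i k) (P k) y x),
    continuous_phi_Psi H hφ y⟩ with hM
  have hMe : ∀ y : ℕ, (∫ θ in {x : Nat.primesBelow (y + 1) → ℝ | ∀ p, x p ∈ Set.Ioc (0:ℝ) 1},
        φ (fun k => ∏ p : Nat.primesBelow (y + 1), if (p:ℕ) ∣ N k then 1 else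
          ((P k p).eval (Complex.exp (2 * Real.pi * θ p * Complex.I) *
            ((p:ℕ):ℂ) ^ (-(1 + (i k:ℂ)/2))))⁻¹)) = M y := by
    intro y
    simp only [hM, tmean, ContinuousMap.coe_mk, Psi_mk]
    rfl
  simp_rw [hMe]
  have hcmp : ∀ r : ℕ, 2 ≤ r → (∀ j, (b j : ℝ) * l < 2 * r) → ∀ ε : ℝ, 0 < ε →
      ∃ y0 : ℕ, ∀ y : ℕ, y0 ≤ y → ∃ (Q : ℕ) (δ : ℝ), 0 < δ ∧ ∀ (q : ℕ) [NeZero q],
        (∀ p : ℕ, p.Prime → p ∣ q → Q ≤ p) →
          ∀ h : ℝ, (q : ℝ) ^ (-(1 / (2 * (r : ℝ) ^ 2))) ≤ h → h ≤ δ → ∀ t : ℝ,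
            ‖(∑ ψ : DirichletCharacter ℂ q,
              φ (fun j => LP (N j) (P j) (1 + (i j:ℂ)/2 + (h:ℂ) + t * Complex.I) ψ)) /
                (Nat.totient q : ℂ) - M y‖ ≤ ε := by
    intro r hr hbl ε hε
    obtain ⟨y0, hy0⟩ := compare H hl (abs_nonneg C) hφ hgr' hr hbl hε
    refine ⟨y0, fun y hy => ?_⟩
    obtain ⟨Q, δ, hδ, hQ⟩ := hy0 y hy
    refine ⟨max Q (y + 1), min δ (1/2), lt_min hδ (by norm_num), ?_⟩
    intro q hqz hq h hlow hle t
    have hq0 : 0 < q := Nat.pos_of_ne_zero (NeZero.ne q)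
    have hq1 : 1 < q := by
      by_contra hcon
      have hq' : q = 1 := by omega
      subst hq'
      have h1 : h ≤ 1/2 := hle.trans (min_le_right _ _)
      rw [Nat.cast_one, Real.one_rpow] at hlow
      linarith
    have h1 := large_of_primes hq1 hq
    exact hQ q ((le_max_left _ _).trans h1)
      (cop_of_primes (Q := max Q (y + 1)) (lt_of_lt_of_le (Nat.lt_succ_self y) (le_max_right _ _)) hq)
      h hlow (hle.trans (min_le_left _ _)) t
  -- existence of the limit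
  obtain ⟨r0, hr0, hbl0⟩ : ∃ r : ℕ, 2 ≤ r ∧ ∀ j, (b j : ℝ) * l < 2 * r := by
    obtain ⟨r, hr⟩ := exists_nat_gt (∑ j, (b j : ℝ) * l)
    refine ⟨r + 2, by omega, fun j => ?_⟩
    have h1 : (b j : ℝ) * l ≤ ∑ j, (b j : ℝ) * l :=
      Finset.single_le_sum (f := fun j => (b j : ℝ) * l) (fun k _ => by positivity)
        (Finset.mem_univ j)
    push_cast
    linarith [Nat.cast_nonneg (α := ℝ) r]
  have hcau : CauchySeq M := by
    rw [Metric.cauchySeq_iff]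
    intro ε hε
    obtain ⟨y0, hy0⟩ := hcmp r0 hr0 hbl0 (ε / 3) (by linarith)
    refine ⟨y0, fun y hy y' hy' => ?_⟩
    obtain ⟨Q1, δ1, hδ1, h1⟩ := hy0 y hy
    obtain ⟨Q2, δ2, hδ2, h2⟩ := hy0 y' hy'
    have hlim : Tendsto (fun q : ℕ => (q : ℝ) ^ (-(1 / (2 * (r0 : ℝ) ^ 2)))) atTop (𝓝 0) := by
      have hr1 : (0:ℝ) < r0 := by exact_mod_cast (by omega : 0 < r0)
      exact (tendsto_rpow_neg_atTop (by positivity)).comp tendsto_natCast_atTop_atTop
    obtain ⟨q0, hq0⟩ := eventually_atTop.mp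
      (hlim.eventually (ge_mem_nhds (lt_min hδ1 hδ2)))
    obtain ⟨q, hqle, hqp⟩ := Nat.exists_infinite_primes (max q0 (max Q1 Q2))
    haveI : NeZero q := ⟨hqp.ne_zero⟩
    have hdiv : ∀ p : ℕ, p.Prime → p ∣ q → p = q := fun p hp hpq =>
      (Nat.prime_dvd_prime_iff_eq hp hqp).mp hpq
    have hsm := hq0 q ((le_max_left _ _).trans hqle)
    have h3 := h1 q (fun p hp hpq => by
      rw [hdiv p hp hpq]
      exact ((le_max_left _ _).trans (le_max_right _ _)).trans hqle) _ le_rfl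
        (hsm.trans (min_le_left _ _)) 0
    have h4 := h2 q (fun p hp hpq => by
      rw [hdiv p hp hpq]
      exact ((le_max_right _ _).trans (le_max_right _ _)).trans hqle) _ le_rfl
        (hsm.trans (min_le_right _ _)) 0
    rw [dist_eq_norm]
    set a := (∑ ψ : DirichletCharacter ℂ q, φ (fun j => LP (N j) (P j)
      (1 + (i j:ℂ)/2 + (((q : ℝ) ^ (-(1 / (2 * (r0 : ℝ) ^ 2))) : ℝ) : ℂ) +
        ((0:ℝ) : ℂ) * Complex.I) ψ)) / (Nat.totient q : ℂ) with ha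
    calc ‖M y - M y'‖ = ‖(a - M y') - (a - M y)‖ := by
          congr 1
          ring
      _ ≤ ε / 3 + ε / 3 := (norm_sub_le _ _).trans (add_le_add h4 h3)
      _ < ε := by linarith
  obtain ⟨m, hmlim⟩ := cauchySeq_tendsto_of_complete hcau
  refine ⟨m, hmlim, ?_⟩
  intro r hr hbl ε hε
  obtain ⟨y0, hy0⟩ := hcmp r hr hbl (ε / 2) (by linarith)
  have h5 := hmlim.eventually (Metric.closedBall_mem_nhds m (show (0:ℝ) < ε / 2 by linarith))
  obtain ⟨y, hy1, hy2⟩ := (h5.and (eventually_ge_atTop y0)).exists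
  obtain ⟨Q, δ, hδ, h1⟩ := hy0 y hy2
  refine ⟨Q, δ, hδ, ?_⟩
  intro q hqz hq h t hlow hle
  have h2 := h1 q hq h hlow hle t
  rw [dist_eq_norm] at hy1
  set a := (∑ ψ : DirichletCharacter ℂ q, φ (fun j => LP (N j) (P j)
      (1 + (i j:ℂ)/2 + (h : ℂ) + (t : ℂ) * Complex.I) ψ)) / (Nat.totient q : ℂ) with ha
  have h3 : ‖a - m‖ ≤ ε := by
    calc ‖a - m‖ = ‖(a - M y) + (M y - m)‖ := by
          congr 1
          ring
      _ ≤ ε / 2 + ε / 2 := (norm_add_le _ _).trans (add_le_add h2 hy1)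
      _ = ε := by ring
  exact h3

end Pool.Agent.H81.ED
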